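import Pool.Agent.H51.TB.Gs

/-!
# V7, block STEP: configurations as multisets of types

The general dimension depends only on the numbers of points of the types.
-/

set_option autoImplicit false

namespace Pool.Agent.V7.ST

open Finset MvPolynomial Pool.Agent.H51.TB

variable {E ν T : Type} [Fintype E] (S : Sys E ν T)

/-- The general dimension depends only on the numbers of points of the types. -/
theorem gd_congr {κ κ' : Type} [Fintype κ] [Fintype κ'] (m : κ → T) (n : κ' → T)
    (h : (univ : Finset κ).val.map m = (univ : Finset κ').val.map n) : S.gd m = S.gd n := by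
  classical
  have hc : ∀ τ : T, Nonempty ({a : κ // m a = τ} ≃ {b : κ' // n b = τ}) := by
    intro τ
    refine ⟨Fintype.equivOfCardEq ?_⟩
    have h1 := congrArg (Multiset.count τ) h
    rw [Multiset.count_map, Multiset.count_map] at h1
    have e1 : (Multiset.filter (fun a => τ = m a) (univ : Finset κ).val).card =
        Fintype.card {a : κ // m a = τ} := by
      rw [Fintype.card_subtype, ← Finset.filter_val, Finset.card_val]
      exact congrArg Finset.card (Finset.filter_congr fun a _ => eq_comm)
    have e2 : (Multiset.filter (fun a => τ = n a) (univ : Finset κ').val).card =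
        Fintype.card {a : κ' // n a = τ} := by
      rw [Fintype.card_subtype, ← Finset.filter_val, Finset.card_val]
      exact congrArg Finset.card (Finset.filter_congr fun a _ => eq_comm)
    rw [← e1, ← e2, h1]
  let e : ∀ τ : T, {a : κ // m a = τ} ≃ {b : κ' // n b = τ} := fun τ => (hc τ).some
  have h2 := gd_comp_equiv S (Equiv.ofFiberEquiv fun τ => e τ) n
  have h3 : (fun i => n ((Equiv.ofFiberEquiv fun τ => e τ) i)) = m := by
    funext i
    exact Equiv.ofFiberEquiv_map _ _
  rw [h3] at h2
  exact h2

/-- The general dimension of a multiset of types. -/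
noncomputable def gM (s : Multiset T) : ℕ :=
  S.gd fun i : Fin s.toList.length => s.toList.get i

theorem gd_eq_gM {κ : Type} [Fintype κ] (m : κ → T) :
    S.gd m = gM S ((univ : Finset κ).val.map m) := by
  set s := (univ : Finset κ).val.map m with hs
  refine gd_congr S _ _ ?_
  rw [← hs]
  have h1 : (univ : Finset (Fin s.toList.length)).val.map (fun i => s.toList.get i) =
      ((List.ofFn fun i => s.toList.get i : List T) : Multiset T) := by
    rw [List.ofFn_eq_map, Fin.univ_val_map]
    rw [List.ofFn_eq_map]
  rw [h1, List.ofFn_get, Multiset.coe_toList]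

/-- Every multiset is a configuration. -/
theorem exists_conf (s : Multiset T) :
    ∃ m : Fin s.toList.length → T, (univ : Finset (Fin s.toList.length)).val.map m = s ∧
      S.gd m = gM S s := by
  refine ⟨fun i => s.toList.get i, ?_, rfl⟩
  have h1 : (univ : Finset (Fin s.toList.length)).val.map (fun i => s.toList.get i) =
      ((List.ofFn fun i => s.toList.get i : List T) : Multiset T) := by
    rw [List.ofFn_eq_map, Fin.univ_val_map]
    rw [List.ofFn_eq_map]
  rw [h1, List.ofFn_get, Multiset.coe_toList]

theorem map_elim {κ κ' : Type} [Fintype κ] [Fintype κ'] (m : κ → T) (n : κ' → T) :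
    (univ : Finset (κ ⊕ κ')).val.map (Sum.elim m n) =
      (univ : Finset κ).val.map m + (univ : Finset κ').val.map n := by
  rw [← Finset.univ_disjSum_univ, Finset.val_disjSum]
  unfold Multiset.disjSum
  rw [Multiset.map_add, Multiset.map_map, Multiset.map_map]
  rfl

theorem map_const {κ : Type} [Fintype κ] (t : T) :
    (univ : Finset κ).val.map (fun _ => t) = Multiset.replicate (Fintype.card κ) t := by
  rw [Multiset.map_const', Finset.card_val, Finset.card_univ]

theorem map_ad {κ : Type} [Fintype κ] (m : κ → T) (t : T) :
    (univ : Finset (κ ⊕ Unit)).val.map (ad m t) = t ::ₘ (univ : Finset κ).val.map m := by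
  unfold ad
  rw [map_elim, map_const, Fintype.card_unit, Multiset.replicate_one, Multiset.add_comm,
    Multiset.singleton_add]

theorem gM_zero : gM S 0 = Fintype.card E := by
  obtain ⟨m, hm, h⟩ := exists_conf S (0 : Multiset T)
  rw [← h]
  have : IsEmpty (Fin (0 : Multiset T).toList.length) := by
    rw [Multiset.toList_zero]
    exact Fin.isEmpty'
  exact gd_empty S m

theorem gM_cons_le (s : Multiset T) (t : T) : gM S (t ::ₘ s) ≤ gM S s := by
  obtain ⟨m, hm, h⟩ := exists_conf S s
  have h1 := gd_ad_le S m t
  rwa [gd_eq_gM S (ad m t), map_ad, hm, h] at h1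

theorem gM_le_cons (s : Multiset T) (t : T) : gM S s ≤ gM S (t ::ₘ s) + S.size t := by
  obtain ⟨m, hm, h⟩ := exists_conf S s
  have h1 := gd_le_ad S m t
  rwa [gd_eq_gM S (ad m t), map_ad, hm, h] at h1

theorem gM_submod (s : Multiset T) (t u : T) :
    gM S (t ::ₘ s) + gM S (u ::ₘ s) ≤ gM S s + gM S (u ::ₘ t ::ₘ s) := by
  obtain ⟨m, hm, h⟩ := exists_conf S s
  have h1 := gd_submod S m t u
  rwa [gd_eq_gM S (ad m t), gd_eq_gM S (ad m u), gd_eq_gM S (ad (ad m t) u), map_ad, map_ad,
    map_ad, hm, h, map_ad, hm] at h1

end Pool.Agent.V7.ST
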