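import Mathlib

/-!
# V7, block STEP: the arithmetic of the closing, abstract form

`g n s`, `v n s` are the dimension and the virtual dimension of the system of level `j` in `n` variables with the
multiset `s` of kinds; `g'`, `v'` belong to the level `j + 1`.  `top` is the kind `(M, [j])`, `sm` a simple
point, `fe` an `M`-fold point in general position, `sj` a swapped point.
-/

set_option autoImplicit false

namespace Pool.Agent.V7.ST

/-- A convex sequence with slopes `≥ -b` whose first `N` slopes are not all equal to `-b`. -/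
theorem slope_lemma (G : ℕ → ℕ) (b : ℕ) (h1 : ∀ i, G i ≤ G (i + 1) + b)
    (h2 : ∀ i, G (i + 1) + G (i + 1) ≤ G i + G (i + 2)) (N : ℕ)
    (hN : G 0 < G N + N * b) (x : ℕ) : G N + x ≤ G (N + x) + x * b := by
  -- if one slope at `i ≥ N` is `-b`, so are all the earlier ones
  have key : ∀ i, G i = G (i + 1) + b → ∀ k ≤ i, G k = G (k + 1) + b := by
    intro i
    induction i with
    | zero =>
      intro h k hk
      obtain rfl : k = 0 := by omega
      exact h
    | succ i ih =>
      intro h k hk
      have e : G i = G (i + 1) + b := by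
        have := h1 i
        have := h2 i
        have h' : G (i + 1) = G (i + 2) + b := h
        omega
      rcases Nat.lt_or_ge k (i + 1) with hk' | hk'
      · exact ih e k (by omega)
      · obtain rfl : k = i + 1 := by omega
        exact h
  have all : ∀ i, (∀ k < i, G k = G (k + 1) + b) → G 0 = G i + i * b := by
    intro i
    induction i with
    | zero => intro _; simp
    | succ i ih =>
      intro h
      have h3 := ih fun k hk => h k (by omega)
      have h4 := h i (by omega)
      have h5 : (i + 1) * b = i * b + b := by ring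
      omega
  have lt : ∀ i, N ≤ i → G i + 1 ≤ G (i + 1) + b := by
    intro i hi
    have h3 := h1 i
    by_contra hcon
    have h4 : G i = G (i + 1) + b := by omega
    have h5 := all N fun k hk => key i h4 k (by omega)
    omega
  induction x with
  | zero => simp
  | succ x ih =>
    have h3 := lt (N + x) (by omega)
    have h4 : (x + 1) * b = x * b + b := by ring
    have h5 : N + (x + 1) = N + x + 1 := by ring
    rw [h5, h4]
    omega

/-- The numbers of points of the other kinds and of the kind `top`. -/
theorem split_top {K : Type} [DecidableEq K] (top : K) (s : Multiset K) :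
    ∃ N s0, s = Multiset.replicate N top + s0 ∧ top ∉ s0 := by
  refine ⟨s.count top, s.filter (fun k => ¬ k = top), ?_, ?_⟩
  · conv_lhs => rw [← Multiset.filter_add_not (fun k => k = top) s]
    congr 1
    rw [Multiset.filter_eq']
  · rw [Multiset.mem_filter]
    rintro ⟨-, h⟩
    exact h rfl

open Multiset in
theorem step_abs {K : Type} [DecidableEq K] (c : ℕ) (hc : 0 < c)
    (g g' : ℕ → Multiset K → ℕ) (v v' : ℕ → Multiset K → ℤ) (b : ℕ → ℕ)
    (P P' : ℕ → Multiset K → Prop) (sm fe sj top : K) (add : K → K) (n0 : ℕ)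
    (bpos : ∀ n, n0 ≤ n → 0 < b n)
    (bmono : ∀ n, n0 ≤ n → b (n - c) ≤ b n)
    (gbd : ∀ n, ∃ C : ℕ, ∀ s, g n s ≤ C)
    (F1 : ∀ n s, n0 ≤ n → P n s → v n s ≤ g n s)
    (F3 : ∀ n s a, n0 ≤ n → g n (s + replicate a sm) = g n s - a)
    (Ranti : ∀ n s, g n (top ::ₘ s) ≤ g n s)
    (Rle : ∀ n s, n0 ≤ n → g n s ≤ g n (top ::ₘ s) + b n)
    (Rsub : ∀ n s, g n (top ::ₘ s) + g n (top ::ₘ s) ≤ g n s + g n (top ::ₘ top ::ₘ s))
    (Vtop : ∀ n s, n0 ≤ n → v n (top ::ₘ s) = v n s - b n)
    (Ptop : ∀ n s, P n (top ::ₘ s) ↔ P n s)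
    (OJ : ∀ n s, n0 ≤ n → P n s → top ∉ s → (g n s : ℤ) ≤ v n s)
    (DH : ∀ n sL sO y a, n0 ≤ n → P n (sL + sO + replicate y fe) →
      g (n - c) (sL + replicate (y + a) sm) = 0 →
      g n (sL + sO + replicate y fe + replicate a sm) ≤ g' n (sL.map add + sO + replicate y sj))
    (PR : ∀ n s, n0 ≤ n → P' n s → (g' n s : ℤ) ≤ max 0 (v' n s))
    (VR : ∀ n sL sO y, n0 ≤ n → P n (sL + sO + replicate y fe) →
      v' n (sL.map add + sO + replicate y sj) =
        v n (sL + sO + replicate y fe) - v (n - c) sL + y)
    (NUM : ∀ X : ℕ, ∃ n1, ∀ n, n1 ≤ n → ∀ s, P n s → -(b n : ℤ) ≤ v n s →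
      v n s < (X + 1) * b n → ∀ x, x ≤ X → ∃ sL sO,
        s = sL + sO + replicate (2 * b (n - c)) fe ∧ P (n - c) sL ∧
        (x : ℤ) * b (n - c) ≤ v (n - c) sL ∧ v (n - c) sL < (x + 1) * b (n - c) ∧
        ∀ y, y ≤ 2 * b (n - c) →
          P' n (sL.map add + (sO + replicate (2 * b (n - c) - y) fe) + replicate y sj)) :
    ∃ n2, ∀ n, n2 ≤ n → ∀ s, P n s → (g n s : ℤ) ≤ max 0 (v n s) := by
  -- the trace is killed by `y` fillers and `a` simple points
  have main : ∀ X : ℕ, ∃ n1, n0 + c ≤ n1 ∧ ∀ n, n1 ≤ n → ∀ s, P n s → -(b n : ℤ) ≤ v n s →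
      v n s < (X + 1) * b n → ∀ x, x ≤ X → ∃ sL, P (n - c) sL ∧
        (x : ℤ) * b (n - c) ≤ v (n - c) sL ∧ v (n - c) sL < (x + 1) * b (n - c) ∧
        ∀ y a, y ≤ 2 * b (n - c) → g (n - c) sL ≤ y + a →
          ((g n s - a : ℕ) : ℤ) ≤ max 0 (v n s - v (n - c) sL + y) := by
    intro X
    obtain ⟨n1, h⟩ := NUM X
    refine ⟨max n1 (n0 + c), le_max_right _ _, fun n hn s hs h1 h2 x hx => ?_⟩
    have hn1 : n1 ≤ n := (le_max_left _ _).trans hn
    have hn0 : n0 + c ≤ n := (le_max_right _ _).trans hn
    obtain ⟨sL, sO, e, hL, h3, h4, h5⟩ := h n hn1 s hs h1 h2 x hx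
    refine ⟨sL, hL, h3, h4, fun y a hy ha => ?_⟩
    have e' : s = sL + (sO + replicate (2 * b (n - c) - y) fe) + replicate y fe := by
      have e1 : replicate (2 * b (n - c)) fe =
          replicate (2 * b (n - c) - y) fe + replicate y fe := by
        rw [← Multiset.replicate_add]
        congr 1
        omega
      rw [e, e1]
      simp only [add_assoc]
    have hPs : P n (sL + (sO + replicate (2 * b (n - c) - y) fe) + replicate y fe) := e' ▸ hs
    have h6 : g (n - c) (sL + replicate (y + a) sm) = 0 := by
      rw [F3 _ _ _ (by omega)]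
      omega
    have h7 := DH n sL (sO + replicate (2 * b (n - c) - y) fe) y a (by omega) hPs h6
    rw [← e', F3 _ _ _ (by omega)] at h7
    have h8 := PR n _ (by omega) (h5 y hy)
    rw [VR n sL _ y (by omega) hPs, ← e'] at h8
    exact (Int.ofNat_le.2 h7).trans h8
  -- (a) the defect is bounded
  obtain ⟨nA, hnA, hA⟩ := main 0
  choose Cb hCb using gbd
  set D : ℕ := (Finset.range (nA + c)).sup Cb with hD
  have stepA : ∀ n, nA ≤ n → ∀ s, P n s → 0 ≤ v n s → v n s < b n →
      (g n s : ℤ) ≤ v n s + D := by
    intro n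
    induction n using Nat.strong_induction_on with
    | _ n ih =>
      intro hn s hs h1 h2
      rcases Nat.lt_or_ge n (nA + c) with hlt | hge
      · have h3 : g n s ≤ D := (hCb n s).trans
          (Finset.le_sup (f := Cb) (Finset.mem_range.2 hlt))
        have h4 : (g n s : ℤ) ≤ D := by exact_mod_cast h3
        linarith
      · have hneg : -(b n : ℤ) ≤ v n s := by
          have : (0 : ℤ) ≤ b n := Int.natCast_nonneg _
          linarith
        obtain ⟨sL, hL, h3, h4, h5⟩ := hA n (by omega) s hs hneg
          (by push_cast; linarith) 0 le_rfl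
        have h6 := ih (n - c) (by omega) (by omega) sL hL (by simpa using h3)
          (by simpa using h4)
        have h7 := F1 (n - c) sL (by omega) hL
        -- the virtual dimension of the trace
        obtain ⟨w, hw⟩ : ∃ w : ℕ, v (n - c) sL = w :=
          ⟨(v (n - c) sL).toNat, by
            have : (0 : ℤ) ≤ v (n - c) sL := by simpa using h3
            omega⟩
        obtain ⟨u, hu⟩ : ∃ u : ℕ, v n s = u := ⟨(v n s).toNat, by omega⟩
        rw [hw] at h4 h5 h6 h7
        rw [hu] at h5 ⊢
        have h4' : w < b (n - c) := by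
          have h8 : (w : ℤ) < b (n - c) := by simpa using h4
          exact_mod_cast h8
        have h7' : w ≤ g (n - c) sL := by exact_mod_cast h7
        have h6' : g (n - c) sL ≤ w + D := by exact_mod_cast h6
        have h9 := h5 (w - min u w) (min u w + (g (n - c) sL - w))
          (by omega) (by omega)
        have h10 : (0 : ℤ) ≤ (u : ℤ) - w + (w - min u w : ℕ) := by
          have : min u w ≤ u := min_le_left _ _
          have : min u w ≤ w := min_le_right _ _
          omega
        rw [max_eq_right h10] at h9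
        have : min u w ≤ u := min_le_left _ _
        have : min u w ≤ w := min_le_right _ _
        omega
  -- (b) exactness for large virtual dimension
  have stepB : ∀ n, nA ≤ n → ∀ s, P n s → (D : ℤ) * b n ≤ v n s → (g n s : ℤ) ≤ v n s := by
    intro n hn s hs hv
    by_contra hcon
    push Not at hcon
    have hn0 : n0 ≤ n := by omega
    have hbp := bpos n hn0
    obtain ⟨N, s0, hs0, htop⟩ := split_top top s
    have hPi : ∀ i, P n (replicate i top + s0) ↔ P n s0 := by
      intro i
      induction i with
      | zero => simp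
      | succ i ih =>
        rw [Multiset.replicate_succ, Multiset.cons_add, Ptop, ih]
    have hVi : ∀ i : ℕ, v n (replicate i top + s0) = v n s0 - i * b n := by
      intro i
      induction i with
      | zero => simp
      | succ i ih =>
        rw [Multiset.replicate_succ, Multiset.cons_add, Vtop _ _ hn0, ih]
        push_cast
        ring
    have hP0 : P n s0 := (hPi N).1 (hs0 ▸ hs)
    have h0 := OJ n s0 hn0 hP0 htop
    set G : ℕ → ℕ := fun i => g n (replicate i top + s0) with hG
    have hG1 : ∀ i, G i ≤ G (i + 1) + b n := by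
      intro i
      have h3 := Rle n (replicate i top + s0) hn0
      rwa [← Multiset.cons_add, ← Multiset.replicate_succ] at h3
    have hG2 : ∀ i, G (i + 1) + G (i + 1) ≤ G i + G (i + 2) := by
      intro i
      have h3 := Rsub n (replicate i top + s0)
      rwa [← Multiset.cons_add, ← Multiset.replicate_succ, ← Multiset.cons_add,
        ← Multiset.replicate_succ] at h3
    have hvs : v n s = v n s0 - N * b n := by rw [hs0, hVi]
    have hgs : g n s = G N := by rw [hs0]
    have hg0 : g n s0 = G 0 := by
      show g n s0 = g n (replicate 0 top + s0)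
      simp
    -- the number of points to be added
    obtain ⟨x, hx1, hx2⟩ : ∃ x : ℕ, (x : ℤ) * b n ≤ v n s ∧ v n s < (x + 1) * b n := by
      have hbz : (0 : ℤ) < b n := by exact_mod_cast hbp
      have hv0 : 0 ≤ v n s := le_trans (by positivity) hv
      refine ⟨(v n s / b n).toNat, ?_, ?_⟩
      · have h3 : ((v n s / b n).toNat : ℤ) = v n s / b n :=
          Int.toNat_of_nonneg (Int.ediv_nonneg hv0 hbz.le)
        rw [h3]
        exact Int.ediv_mul_le _ hbz.ne'
      · have h3 : ((v n s / b n).toNat : ℤ) = v n s / b n :=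
          Int.toNat_of_nonneg (Int.ediv_nonneg hv0 hbz.le)
        rw [h3]
        exact Int.lt_ediv_add_one_mul_self _ hbz
    have hxD : D ≤ x := by
      by_contra h3
      push Not at h3
      have h4 : ((x : ℤ) + 1) * b n ≤ D * b n := by
        refine mul_le_mul_of_nonneg_right ?_ (Int.natCast_nonneg _)
        exact_mod_cast h3
      linarith
    have h3 := stepA n hn (replicate (N + x) top + s0) ((hPi _).2 hP0)
      (by rw [hVi]; push_cast; linarith) (by rw [hVi]; push_cast; linarith)
    have h4 : G 0 < G N + N * b n := by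
      have h5 : (G 0 : ℤ) < G N + N * b n := by
        rw [← hg0, ← hgs]
        linarith
      exact_mod_cast h5
    have h5 := slope_lemma G (b n) hG1 hG2 N h4 x
    have h6 : (g n (replicate (N + x) top + s0) : ℤ) = G (N + x) := rfl
    rw [h6, hVi] at h3
    have h7 : (G N : ℤ) + x ≤ G (N + x) + x * b n := by exact_mod_cast h5
    have h8 : v n s + 1 ≤ G N := by
      rw [← hgs]
      exact hcon
    have h9 : (D : ℤ) ≤ x := by exact_mod_cast hxD
    push_cast at h3
    linarith
  -- (c) descending induction
  have stepC : ∀ k x : ℕ, D ≤ x + k → ∃ nx, ∀ n, nx ≤ n → ∀ s, P n s →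
      (x : ℤ) * b n ≤ v n s → (g n s : ℤ) ≤ v n s := by
    intro k
    induction k with
    | zero =>
      intro x hx
      refine ⟨nA, fun n hn s hs hv => stepB n hn s hs (le_trans ?_ hv)⟩
      refine mul_le_mul_of_nonneg_right ?_ (Int.natCast_nonneg _)
      exact_mod_cast hx
    | succ k ih =>
      intro x hx
      obtain ⟨nx, hnx⟩ := ih (x + 1) (by omega)
      obtain ⟨nM, hnM0, hnM⟩ := main (x + 1)
      refine ⟨max (nx + c) nM, fun n hn s hs hv => ?_⟩
      have hn1 : nx + c ≤ n := (le_max_left _ _).trans hn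
      have hn2 : nM ≤ n := (le_max_right _ _).trans hn
      rcases le_or_gt (((x + 1 : ℕ) : ℤ) * b n) (v n s) with hge | hlt
      · exact hnx n (by omega) s hs hge
      have hb0 : (0 : ℤ) ≤ b n := Int.natCast_nonneg _
      have hx0 : (0 : ℤ) ≤ (x : ℤ) * b n := mul_nonneg (Int.natCast_nonneg _) hb0
      obtain ⟨sL, hL, h3, h4, h5⟩ := hnM n hn2 s hs (by linarith)
        (by push_cast at hlt ⊢; linarith) (x + 1) le_rfl
      have h6 := hnx (n - c) (by omega) sL hL h3
      have h7 : x * b (n - c) ≤ x * b n := Nat.mul_le_mul_left _ (bmono n (by omega))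
      obtain ⟨w, hw⟩ : ∃ w : ℕ, v (n - c) sL = w :=
        ⟨(v (n - c) sL).toNat, by
          have : (0 : ℤ) ≤ ((x + 1 : ℕ) : ℤ) * b (n - c) := by positivity
          omega⟩
      rw [hw] at h3 h4 h5 h6
      have h3' : (x + 1) * b (n - c) ≤ w := by exact_mod_cast h3
      have h4' : w < (x + 1 + 1) * b (n - c) := by exact_mod_cast h4
      have h6' : g (n - c) sL ≤ w := by exact_mod_cast h6
      have e1 : (x + 1) * b (n - c) = x * b (n - c) + b (n - c) := by ring
      have e2 : (x + 1 + 1) * b (n - c) = x * b (n - c) + 2 * b (n - c) := by ring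
      rw [e1] at h3'
      rw [e2] at h4'
      have h8 := h5 (w - x * b (n - c)) (x * b (n - c)) (by omega) (by omega)
      have h9 : (v n s) - w + ((w - x * b (n - c) : ℕ) : ℤ) = v n s - (x * b (n - c) : ℕ) := by
        have : x * b (n - c) ≤ w := by omega
        push_cast [this]
        ring
      rw [h9] at h8
      have h10 : ((x * b (n - c) : ℕ) : ℤ) ≤ v n s := by
        have h11 : ((x * b (n - c) : ℕ) : ℤ) ≤ ((x * b n : ℕ) : ℤ) := by exact_mod_cast h7
        refine h11.trans ?_
        push_cast
        exact hv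
      rw [max_eq_right (by linarith)] at h8
      have h12 : (g n s : ℤ) - (x * b (n - c) : ℕ) ≤ ((g n s - x * b (n - c) : ℕ) : ℤ) := by
        omega
      linarith
  obtain ⟨nQ, hnQ⟩ := stepC D 0 (by omega)
  -- (d) negative virtual dimension
  refine ⟨max (nQ + c) nA, fun n hn s hs => ?_⟩
  have hn1 : nQ + c ≤ n := (le_max_left _ _).trans hn
  have hn2 : nA ≤ n := (le_max_right _ _).trans hn
  have hn0 : n0 ≤ n := by omega
  rcases le_or_gt 0 (v n s) with hpos | hneg
  · rw [max_eq_right hpos]
    exact hnQ n (by omega) s hs (by simpa using hpos)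
  · rw [max_eq_left hneg.le]
    obtain ⟨N, s0, hs0, htop⟩ := split_top top s
    have hPi : ∀ i, P n (replicate i top + s0) ↔ P n s0 := by
      intro i
      induction i with
      | zero => simp
      | succ i ih =>
        rw [Multiset.replicate_succ, Multiset.cons_add, Ptop, ih]
    have hVi : ∀ i : ℕ, v n (replicate i top + s0) = v n s0 - i * b n := by
      intro i
      induction i with
      | zero => simp
      | succ i ih =>
        rw [Multiset.replicate_succ, Multiset.cons_add, Vtop _ _ hn0, ih]
        push_cast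
        ring
    have hP0 : P n s0 := (hPi N).1 (hs0 ▸ hs)
    have h0 := OJ n s0 hn0 hP0 htop
    have hgi : ∀ i k, g n (replicate (i + k) top + s0) ≤ g n (replicate i top + s0) := by
      intro i k
      induction k with
      | zero => exact le_rfl
      | succ k ih =>
        refine le_trans ?_ ih
        have h3 := Ranti n (replicate (i + k) top + s0)
        rwa [← Multiset.cons_add, ← Multiset.replicate_succ] at h3
    have hbp : (0 : ℤ) < b n := by exact_mod_cast bpos n hn0
    have hv0 : 0 ≤ v n s0 := le_trans (Int.natCast_nonneg _) h0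
    obtain ⟨i, hi1, hi2⟩ : ∃ i : ℕ, (i : ℤ) * b n ≤ v n s0 ∧ v n s0 < (i + 1) * b n := by
      refine ⟨(v n s0 / b n).toNat, ?_, ?_⟩
      · have h3 : ((v n s0 / b n).toNat : ℤ) = v n s0 / b n :=
          Int.toNat_of_nonneg (Int.ediv_nonneg hv0 hbp.le)
        rw [h3]
        exact Int.ediv_mul_le _ hbp.ne'
      · have h3 : ((v n s0 / b n).toNat : ℤ) = v n s0 / b n :=
          Int.toNat_of_nonneg (Int.ediv_nonneg hv0 hbp.le)
        rw [h3]
        exact Int.lt_ediv_add_one_mul_self _ hbp
    have hvs : v n s = v n s0 - N * b n := by rw [hs0, hVi]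
    have hiN : i + 1 ≤ N := by
      by_contra h3
      push Not at h3
      have h4 : (N : ℤ) * b n ≤ i * b n := by
        refine mul_le_mul_of_nonneg_right ?_ hbp.le
        have : N ≤ i := by omega
        exact_mod_cast this
      linarith
    set s1 : Multiset K := replicate (i + 1) top + s0 with hs1
    have h4 : g n s ≤ g n s1 := by
      rw [hs0]
      have h5 := hgi (i + 1) (N - (i + 1))
      rwa [Nat.add_sub_cancel' hiN] at h5
    have hv1 : v n s1 = v n s0 - (i + 1) * b n := by
      rw [hs1, hVi]
      push_cast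
      ring
    obtain ⟨sL, hL, h5, h6, h7⟩ := hA n hn2 s1 ((hPi _).2 hP0) (by rw [hv1]; linarith)
      (by rw [hv1]; push_cast; linarith) 0 le_rfl
    have h8 := hnQ (n - c) (by omega) sL hL (by simpa using h5)
    obtain ⟨w, hw⟩ : ∃ w : ℕ, v (n - c) sL = w :=
      ⟨(v (n - c) sL).toNat, by
        have : (0 : ℤ) ≤ v (n - c) sL := by simpa using h5
        omega⟩
    rw [hw] at h6 h7 h8
    have h6' : w < b (n - c) := by
      have h9 : (w : ℤ) < b (n - c) := by simpa using h6
      exact_mod_cast h9
    have h8' : g (n - c) sL ≤ w := by exact_mod_cast h8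
    have h9 := h7 w 0 (by omega) (by omega)
    have h10 : v n s1 - w + w ≤ 0 := by rw [hv1]; linarith
    rw [max_eq_left h10] at h9
    have h11 : (g n s : ℤ) ≤ g n s1 := by exact_mod_cast h4
    rw [Nat.sub_zero] at h9
    exact h11.trans h9

end Pool.Agent.V7.ST
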