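import Pool.Agent.V7.Defs
import Pool.Agent.H54.V7.Size

/-!
# V7, block STEP: the numbers `bb`
-/

set_option autoImplicit false

namespace Pool.Agent.V7.ST

open Finset Pool.Agent.H54.V7

theorem bb_eq (c k j n : ℕ) : bb c k j n = bbc c k j n := by
  induction j generalizing n with
  | zero => exact Nat.multichoose_eq n k
  | succ j ih =>
    show bb c k j n - bb c k j (n - c) = bbc c k j n - bbc c k j (n - c)
    rw [ih, ih]

/-- The coordinates of the block `i`. -/
def bk (c n i : ℕ) : Finset (Fin n) := univ.filter fun s => blk c n s = i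

theorem mem_bk {c n i : ℕ} {s : Fin n} : s ∈ bk c n i ↔ s.1 / c = i := by
  unfold bk
  rw [mem_filter]
  exact ⟨fun h => h.2, fun h => ⟨mem_univ s, h⟩⟩

theorem card_bk {c n i : ℕ} (hc : 0 < c) (h : (i + 1) * c ≤ n) : (bk c n i).card = c := by
  have h1 : (bk c n i).map Fin.valEmbedding = Ico (i * c) ((i + 1) * c) := by
    ext x
    rw [mem_map, mem_Ico]
    constructor
    · rintro ⟨s, hs, rfl⟩
      rw [mem_bk] at hs
      show i * c ≤ s.1 ∧ s.1 < (i + 1) * c
      rw [← hs]
      exact ⟨Nat.div_mul_le_self _ _, by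
        rw [mul_comm]
        exact Nat.lt_mul_div_succ _ hc⟩
    · rintro ⟨h2, h3⟩
      refine ⟨⟨x, by omega⟩, ?_, rfl⟩
      rw [mem_bk]
      show x / c = i
      refine Nat.div_eq_of_lt_le ?_ ?_
      · rw [mul_comm] at h2 ⊢
        linarith
      · rw [mul_comm] at h3 ⊢
        linarith
  rw [← card_map, h1, Nat.card_Ico, add_mul, one_mul, Nat.add_sub_cancel_left]

theorem bk_disj {c n i k : ℕ} (h : i ≠ k) : Disjoint (bk c n i) (bk c n k) := by
  rw [disjoint_left]
  intro s hs hs'
  rw [mem_bk] at hs hs'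
  exact h (hs.symm.trans hs')

/-- The first `n'` coordinates. -/
def fst (n n' : ℕ) : Finset (Fin n) := univ.filter fun s => s.1 < n'

theorem card_fst {n n' : ℕ} (h : n' ≤ n) : (fst n n').card = n' := by
  have h1 : (fst n n').map Fin.valEmbedding = range n' := by
    ext x
    rw [mem_map, mem_range]
    constructor
    · rintro ⟨s, hs, rfl⟩
      unfold fst at hs
      rw [mem_filter] at hs
      exact hs.2
    · intro h2
      exact ⟨⟨x, by omega⟩, by unfold fst; rw [mem_filter]; exact ⟨mem_univ _, h2⟩, rfl⟩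
  rw [← card_map, h1, card_range]

/-- `bb` is the number of exponents in the first `n'` of `n` variables. -/
theorem card_fst_mset {c n n' : ℕ} (hc : 0 < c) (k : ℕ) (I : Finset ℕ)
    (h : ∀ i ∈ I, (i + 1) * c ≤ n') (h' : n' ≤ n) :
    (mset (bk c n) (fst n n') I k).card = bb c k I.card n' := by
  rw [bb_eq, card_mset (bk c n) c k I (fst n n') ?_ ?_, card_fst h']
  · intro i hi
    refine ⟨fun s hs => ?_, card_bk hc ((h i hi).trans h')⟩
    rw [mem_bk] at hs
    unfold fst
    rw [mem_filter]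
    refine ⟨mem_univ _, ?_⟩
    have h1 := h i hi
    rw [← hs] at h1
    have h2 : s.1 < (s.1 / c + 1) * c := by
      rw [mul_comm]
      exact Nat.lt_mul_div_succ _ hc
    omega
  · intro i _ k _ hik
    exact bk_disj hik

theorem card_mset_bb {c n : ℕ} (hc : 0 < c) (k : ℕ) (I : Finset ℕ)
    (h : ∀ i ∈ I, (i + 1) * c ≤ n) : (mset (bk c n) univ I k).card = bb c k I.card n := by
  rw [← card_fst_mset hc k I h le_rfl]
  congr 2
  ext s
  unfold fst
  rw [mem_filter]
  exact ⟨fun h => ⟨h, s.2⟩, fun h => h.1⟩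

theorem Ex_eq_mset (c n k j : ℕ) : Ex (blk c n) k j = mset (bk c n) univ (range j) k := by
  ext a
  rw [mem_Ex, mem_mset]
  constructor
  · rintro ⟨h1, h2⟩
    refine ⟨⟨h1, fun x _ => mem_univ x⟩, fun i hi h3 => ?_⟩
    obtain ⟨s, hs, hs'⟩ := h2 i (mem_range.1 hi)
    exact hs' (h3 s (mem_bk.2 hs))
  · rintro ⟨⟨h1, -⟩, h2⟩
    refine ⟨h1, fun i hi => ?_⟩
    have h3 := h2 i (mem_range.2 hi)
    push Not at h3
    obtain ⟨s, hs, hs'⟩ := h3
    exact ⟨s, mem_bk.1 hs, hs'⟩

theorem card_Ex {c n j : ℕ} (hc : 0 < c) (k : ℕ) (h : j * c ≤ n) :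
    (Ex (blk c n) k j).card = bb c k j n := by
  rw [Ex_eq_mset, card_mset_bb hc k (range j), card_range]
  intro i hi
  rw [mem_range] at hi
  exact (Nat.mul_le_mul_right c hi).trans h

theorem bb_mono {c j n n' : ℕ} (hc : 0 < c) (k : ℕ) (h : j * c ≤ n') (h' : n' ≤ n) :
    bb c k j n' ≤ bb c k j n := by
  have h1 : ∀ i ∈ range j, (i + 1) * c ≤ n' := by
    intro i hi
    rw [mem_range] at hi
    exact (Nat.mul_le_mul_right c hi).trans h
  have h2 := card_fst_mset hc k (range j) h1 h'
  have h3 := card_mset_bb hc k (range j) fun i hi => (h1 i hi).trans h'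
  rw [card_range] at h2 h3
  rw [← h2, ← h3]
  exact card_le_card (mset_mono _ (subset_univ _) _ _)

theorem bb_succ_add {c j n : ℕ} (hc : 0 < c) (k : ℕ) (h : (j + 1) * c ≤ n) :
    bb c k (j + 1) n + bb c k j (n - c) = bb c k j n := by
  have h1 : bb c k j (n - c) ≤ bb c k j n := by
    refine bb_mono hc k ?_ (Nat.sub_le _ _)
    rw [add_mul, one_mul] at h
    omega
  show bb c k j n - bb c k j (n - c) + bb c k j (n - c) = bb c k j n
  exact Nat.sub_add_cancel h1

theorem bb_pos {c j n : ℕ} (hc : 0 < c) (k : ℕ) (hk : j ≤ k) (h : j * c + 1 ≤ n) :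
    0 < bb c k j n := by
  rw [← card_Ex hc k (by omega), card_pos]
  have hlt : ∀ i, i ≤ j → i * c < n := by
    intro i hi
    have := Nat.mul_le_mul_right c hi
    omega
  refine ⟨fun x => (∑ i ∈ range j, if x.1 = i * c then 1 else 0) +
    if x.1 = j * c then k - j else 0, mem_Ex.2 ⟨?_, fun i hi => ?_⟩⟩
  · rw [sum_add_distrib, sum_comm]
    have h1 : ∀ i ∈ range j, ∑ x : Fin n, (if x.1 = i * c then 1 else 0) = 1 := by
      intro i hi
      rw [mem_range] at hi
      rw [sum_eq_single (⟨i * c, hlt i hi.le⟩ : Fin n)]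
      · exact if_pos rfl
      · intro x _ hx
        exact if_neg fun h2 => hx (Fin.ext h2)
      · intro h2
        exact absurd (mem_univ _) h2
    rw [sum_congr rfl h1, sum_const, card_range, smul_eq_mul, mul_one,
      sum_eq_single (⟨j * c, hlt j le_rfl⟩ : Fin n)]
    · rw [if_pos rfl]
      omega
    · intro x _ hx
      exact if_neg fun h2 => hx (Fin.ext h2)
    · intro h2
      exact absurd (mem_univ _) h2
  · refine ⟨⟨i * c, hlt i hi.le⟩, Nat.mul_div_cancel i hc, ?_⟩
    have h1 : (1 : ℕ) ≤ ∑ i' ∈ range j, if i * c = i' * c then 1 else 0 := by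
      refine le_trans ?_ (single_le_sum (f := fun i' => if i * c = i' * c then 1 else 0)
        (fun _ _ => Nat.zero_le _) (mem_range.2 hi))
      rw [if_pos rfl]
    show (∑ i' ∈ range j, if i * c = i' * c then 1 else 0) + (if i * c = j * c then k - j else 0) ≠ 0
    omega

/-- The block `j` does not contain the point. -/
def Off (j : ℕ) : Kd → Prop
  | .ord _ I => j ∉ I
  | .sw _ I => j ∉ I

theorem Off.of_ok {M j : ℕ} {k : Kd} (h : k.Ok M j) : Off j k := by
  rcases k with ⟨μ, I⟩ | ⟨i, I⟩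
  · intro h1
    exact absurd (mem_range.1 (h.2.2 h1)) (lt_irrefl j)
  · intro h1
    exact absurd (mem_Ico.1 (h.2 h1)).2 (lt_irrefl j)

theorem card_le_of_ok {M j μ : ℕ} {I : Finset ℕ} (h : (Kd.ord μ I).Ok M j) : I.card ≤ j := by
  have h1 := card_le_card h.2.2
  rwa [card_range] at h1

theorem card_le_of_ok' {M j i : ℕ} {I : Finset ℕ} (h : (Kd.sw i I).Ok M j) : I.card + 1 ≤ j := by
  have h1 := card_le_card h.2
  rw [Nat.card_Ico] at h1
  have h2 := h.1
  omega

theorem wt_add {M c j n : ℕ} (hc : 0 < c) (hn : (j + 1) * c + 1 ≤ n) {k : Kd} (h : k.Ok M j) :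
    wt M c n (k.add j) + wt M c (n - c) k = wt M c n k := by
  have hoff := Off.of_ok h
  rcases k with ⟨μ, I⟩ | ⟨i, I⟩
  · have h1 : I.card ≤ j := card_le_of_ok h
    have h2 := bb_succ_add (c := c) (j := I.card) (n := n) hc (μ - 1)
      ((Nat.mul_le_mul_right c (Nat.succ_le_succ h1)).trans (Nat.le_of_succ_le hn))
    show bb c (μ - 1) (insert j I).card n + bb c (μ - 1) I.card (n - c) = bb c (μ - 1) I.card n
    rw [card_insert_of_notMem hoff]
    exact h2
  · have h1 : I.card + 1 ≤ j := card_le_of_ok' h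
    have h2 := bb_succ_add (c := c) (j := I.card) (n := n) hc (M - 1)
      ((Nat.mul_le_mul_right c (Nat.succ_le_succ (by omega : I.card ≤ j))).trans
        (Nat.le_of_succ_le hn))
    show bb c (M - 1) (insert j I).card n - (if insert j I = ∅ then 1 else 0) +
      (bb c (M - 1) I.card (n - c) - if I = ∅ then 1 else 0) =
      bb c (M - 1) I.card n - if I = ∅ then 1 else 0
    rw [card_insert_of_notMem hoff, if_neg (insert_ne_empty j I)]
    split_ifs with h3
    · have h4 : 0 < bb c (M - 1) I.card (n - c) := by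
        subst h3
        refine bb_pos hc (M - 1) (Nat.zero_le _) ?_
        rw [card_empty, zero_mul]
        have h5 : (j + 1) * c = j * c + c := by ring
        have h6 : 0 ≤ j * c := Nat.zero_le _
        omega
      omega
    · omega

theorem sum_wt_add {M c j n : ℕ} (hc : 0 < c) (hn : (j + 1) * c + 1 ≤ n) (s : Multiset Kd)
    (h : ∀ k ∈ s, k.Ok M j) :
    ((s.map (Kd.add j)).map (wt M c n)).sum + (s.map (wt M c (n - c))).sum =
      (s.map (wt M c n)).sum := by
  induction s using Multiset.induction_on with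
  | empty => rfl
  | cons k s ih =>
    have h1 := ih fun k' hk' => h k' (Multiset.mem_cons_of_mem hk')
    have h2 := wt_add hc hn (h k (Multiset.mem_cons_self k s))
    rw [Multiset.map_cons, Multiset.map_cons, Multiset.map_cons, Multiset.map_cons,
      Multiset.sum_cons, Multiset.sum_cons, Multiset.sum_cons]
    omega

theorem wt_sj {M c j n : ℕ} (hc : 0 < c) (hn : 1 ≤ n) :
    wt M c n (.sw j ∅) + 1 = wt M c n (.ord M ∅) := by
  show bb c (M - 1) (∅ : Finset ℕ).card n - (if (∅ : Finset ℕ) = ∅ then 1 else 0) + 1 =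
    bb c (M - 1) (∅ : Finset ℕ).card n
  rw [if_pos rfl]
  have h : 0 < bb c (M - 1) (∅ : Finset ℕ).card n := by
    refine bb_pos hc (M - 1) (Nat.zero_le _) ?_
    rw [card_empty, zero_mul]
    omega
  omega

/-- The virtual dimension of the residual system. -/
theorem vd_res {M c j n : ℕ} (hc : 0 < c) (hn : (j + 1) * c + 1 ≤ n) (sL sO : Multiset Kd)
    (y : ℕ) (h : ∀ k ∈ sL, k.Ok M j) :
    vd M c (j + 1) n (sL.map (Kd.add j) + sO + Multiset.replicate y (.sw j ∅)) =
      vd M c j n (sL + sO + Multiset.replicate y (.ord M ∅)) - vd M c j (n - c) sL + y := by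
  have h1 := bb_succ_add (c := c) (j := j) (n := n) hc (2 * M - 1) (by omega)
  have h2 := sum_wt_add (M := M) hc hn sL h
  have h3 := wt_sj (M := M) (c := c) (j := j) (n := n) hc (by omega)
  have h4 : y * wt M c n (.sw j ∅) + y = y * wt M c n (.ord M ∅) := by
    rw [← h3]
    ring
  unfold vd
  simp only [Multiset.map_add, Multiset.sum_add, Multiset.map_replicate, Multiset.sum_replicate,
    smul_eq_mul]
  rw [← h1, ← h2, ← h4]
  push_cast
  ring

end Pool.Agent.V7.ST
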