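import Pool.Agent.V7.Defs
import Pool.Agent.V7.ST.Ms

/-!
# V7, fact (F3): a simple point imposes exactly one condition, unless the dimension is `0`
-/

set_option autoImplicit false
set_option linter.unusedSectionVars false

namespace Pool.Agent.V7

open Finset MvPolynomial Pool.Agent.H51.TB Pool.Agent.H54.V7 Pool.Agent.V7.ST
open Pool.Agent.H18.Ex (tcr)

section

variable {ν : Type} [Fintype ν] [DecidableEq ν] (M : ℕ) (β : ν → ℕ) (A : Finset (ν → ℕ))

theorem msk_none {ν' R : Type} [Zero R] (β' : ν' → ℕ) (q : ν' → R) : msk β' ∅ q = q := by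
  funext s
  unfold msk
  rw [if_neg (Finset.notMem_empty _)]

/-- The condition of a simple point. -/
theorem satK_sm (q : ν ⊕ ν → ℂ) (f : {a // a ∈ A} → ℂ) :
    SatK M β Kd.sm q f ↔ ∑ e : {a // a ∈ A}, f e * ∏ s, q (Sum.inl s) ^ e.1 s = 0 := by
  show Fat (fun e : {a // a ∈ A} => e.1) 1 (msk β ∅ fun s => q (Sum.inl s)) f ↔ _
  rw [msk_none]
  have key : ∀ e : {a // a ∈ A}, tcr (fun s => q (Sum.inl s)) e.1 (fun _ => 0) =
      ∏ s, q (Sum.inl s) ^ e.1 s := by
    intro e
    unfold tcr
    refine prod_congr rfl fun s _ => ?_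
    rw [Nat.choose_zero_right, Nat.cast_one, one_mul, Nat.sub_zero]
  constructor
  · intro h
    have h1 := h (fun _ => 0) (by simp)
    simp only [key] at h1
    exact h1
  · intro h b hb
    have hb0 : b = fun _ => 0 := by
      funext s
      have h1 : b s ≤ ∑ s, b s := single_le_sum (f := b) (fun _ _ => Nat.zero_le _) (mem_univ s)
      show b s = 0
      omega
    rw [hb0]
    simp only [key]
    exact h

/-- A simple point imposes at most one condition. -/
theorem size_sm_le : (LSA M β A).size Kd.sm ≤ 1 := by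
  obtain ⟨p, hp⟩ := gd_attained (LSA M β A) fun _ : Unit => Kd.sm
  let L : ({a // a ∈ A} → ℂ) →ₗ[ℂ] ℂ :=
    ∑ e : {a // a ∈ A}, (∏ s, p () (Sum.inl s) ^ e.1 s) • LinearMap.proj e
  have hL : ∀ f, L f = ∑ e : {a // a ∈ A}, f e * ∏ s, p () (Sum.inl s) ^ e.1 s := by
    intro f
    simp only [L, LinearMap.sum_apply, LinearMap.smul_apply, LinearMap.proj_apply, smul_eq_mul]
    exact sum_congr rfl fun e _ => mul_comm _ _
  have h1 : LinearMap.ker L ≤ (LSA M β A).V (fun _ : Unit => Kd.sm) p := by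
    intro f hf
    rw [LinearMap.mem_ker, hL] at hf
    rw [mem_LSA]
    rintro ⟨⟩
    rw [satK_sm]
    exact hf
  have h2 := Submodule.finrank_mono h1
  have h3 := LinearMap.finrank_range_add_finrank_ker L
  have h4 : Module.finrank ℂ (LinearMap.range L) ≤ 1 := by
    refine (Submodule.finrank_le _).trans ?_
    rw [Module.finrank_self]
  rw [Module.finrank_fintype_fun_eq_card] at h3
  unfold Sys.size
  omega

/-- A nonzero form does not vanish at a general point. -/
theorem exists_ne_zero {f : {a // a ∈ A} → ℂ} (hf : f ≠ 0) :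
    ∃ q : ν → ℂ, ∑ e : {a // a ∈ A}, f e * ∏ s, q s ^ e.1 s ≠ 0 := by
  classical
  let P : MvPolynomial ν ℂ :=
    ∑ e : {a // a ∈ A}, monomial (Finsupp.equivFunOnFinite.symm e.1) (f e)
  have hP : P ≠ 0 := by
    intro h0
    apply hf
    funext e₀
    have h1 : coeff (Finsupp.equivFunOnFinite.symm e₀.1) P = f e₀ := by
      simp only [P]
      rw [coeff_sum, sum_eq_single e₀]
      · rw [coeff_monomial, if_pos rfl]
      · intro e _ he
        rw [coeff_monomial, if_neg]
        intro h
        exact he (Subtype.ext (Finsupp.equivFunOnFinite.symm.injective h))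
      · intro h
        exact absurd (mem_univ _) h
    rw [h0, coeff_zero] at h1
    exact h1.symm
  by_contra hcon
  push Not at hcon
  apply hP
  refine MvPolynomial.funext fun q => ?_
  rw [map_zero]
  simp only [P]
  rw [map_sum, ← hcon q]
  refine sum_congr rfl fun e _ => ?_
  rw [eval_monomial, Finsupp.prod_fintype]
  · rfl
  · intro s
    rw [pow_zero]

/-- A simple point imposes a condition, unless the dimension is `0`. -/
theorem gd_ad_sm_lt {κ : Type} [Fintype κ] (m : κ → Kd) (h : 0 < (LSA M β A).gd m) :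
    (LSA M β A).gd (ad m Kd.sm) < (LSA M β A).gd m := by
  obtain ⟨p, hp⟩ := gd_attained (LSA M β A) m
  have hne : (LSA M β A).V m p ≠ ⊥ := by
    intro h0
    rw [h0, finrank_bot] at hp
    omega
  obtain ⟨f, hf, hf0⟩ := Submodule.exists_mem_ne_zero_of_ne_bot hne
  obtain ⟨q, hq⟩ := exists_ne_zero A hf0
  have h1 := gd_le (LSA M β A) (ad m Kd.sm)
    (Sum.elim p fun _ : Unit => (Sum.elim q 0 : ν ⊕ ν → ℂ))
  refine h1.trans_lt ?_
  rw [← hp]
  refine Submodule.finrank_lt_finrank_of_lt ?_
  unfold ad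
  rw [V_elim]
  refine lt_of_le_of_ne inf_le_left fun heq => hq ?_
  have h2 : f ∈ (LSA M β A).V (fun _ : Unit => Kd.sm)
      (fun _ : Unit => (Sum.elim q 0 : ν ⊕ ν → ℂ)) := by
    have h3 : f ∈ (LSA M β A).V m p ⊓ (LSA M β A).V (fun _ : Unit => Kd.sm)
      (fun _ : Unit => (Sum.elim q 0 : ν ⊕ ν → ℂ)) := by
      rw [heq]
      exact hf
    exact h3.2
  rw [mem_LSA] at h2
  have h4 := (satK_sm M β A _ f).1 (h2 ())
  exact h4

/-- **(F3)**, one simple point. -/
theorem gM_cons_sm (s : Multiset Kd) :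
    gM (LSA M β A) (Kd.sm ::ₘ s) = gM (LSA M β A) s - 1 := by
  have h1 := gM_cons_le (LSA M β A) s Kd.sm
  have h2 := gM_le_cons (LSA M β A) s Kd.sm
  have h3 := size_sm_le M β A
  rcases Nat.eq_zero_or_pos (gM (LSA M β A) s) with h0 | h0
  · omega
  · obtain ⟨m, hm, h⟩ := exists_conf (LSA M β A) s
    have h4 := gd_ad_sm_lt M β A m (by rw [h]; exact h0)
    rw [gd_eq_gM (LSA M β A) (ad m Kd.sm), map_ad, hm, h] at h4
    omega

/-- **(F3)**: `a` simple points impose `a` conditions. -/
theorem gM_add_sm (s : Multiset Kd) (a : ℕ) :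
    gM (LSA M β A) (s + Multiset.replicate a Kd.sm) = gM (LSA M β A) s - a := by
  induction a with
  | zero => rw [Multiset.replicate_zero, Multiset.add_zero, Nat.sub_zero]
  | succ a ih =>
    rw [Multiset.replicate_succ, Multiset.add_cons, gM_cons_sm, ih]
    omega

/-- **(F3)** for configurations. -/
theorem gd_elim_sm {κ κ' : Type} [Fintype κ] [Fintype κ'] (m : κ → Kd) :
    (LSA M β A).gd (Sum.elim m fun _ : κ' => Kd.sm) = (LSA M β A).gd m - Fintype.card κ' := by
  rw [gd_eq_gM, map_elim, ST.map_const, gM_add_sm, ← gd_eq_gM]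

end

end Pool.Agent.V7
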