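import Pool.Agent.V7.Cls
import Pool.Agent.V7.F1
import Pool.Agent.V7.ST.Abs
import Pool.Agent.V7.ST.Bb
import Pool.Agent.V7.ST.F3

/-!
# V7, block STEP: exactness on the level `j` from exactness on the level `j + 1`
-/

set_option autoImplicit false

namespace Pool.Agent.V7

open Finset Pool.Agent.H51.TB Pool.Agent.V7.ST

theorem Cls0.mono {M c j n : ℕ} {e e' : ℝ} {N : Kd → ℕ} (h : Cls0 M c j n e N) (he : e ≤ e') :
    Cls0 M c j n e' N := by
  have hn : ∀ k : ℕ, (0 : ℝ) ≤ (n : ℝ) ^ k := fun k => by positivity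
  exact ⟨h.ok, fun I h1 h2 => (h.big I h1 h2).trans (mul_le_mul_of_nonneg_right he (hn _)),
    fun i hi I hI => (h.swp i hi I hI).trans (mul_le_mul_of_nonneg_right (by linarith) (hn _)),
    fun μ h1 h2 I hI => (h.sml μ h1 h2 I hI).trans (mul_le_mul_of_nonneg_right he (hn _))⟩

/-- Nothing is required about the points of the kind `ord M (range j)`. -/
theorem Cls0.cons_top {M c j n : ℕ} (hM : 1 ≤ M) {e : ℝ} {s : Multiset Kd} :
    Cls0 M c j n e (fun τ => (Kd.ord M (range j) ::ₘ s).count τ) ↔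
      Cls0 M c j n e (fun τ => s.count τ) := by
  have h1 : ∀ τ, τ ≠ Kd.ord M (range j) →
      (Kd.ord M (range j) ::ₘ s).count τ = s.count τ := fun τ hτ => Multiset.count_cons_of_ne hτ _
  have h2 : ∀ I, I ≠ range j →
      tot M j (fun τ => (Kd.ord M (range j) ::ₘ s).count τ) I = tot M j (fun τ => s.count τ) I := by
    intro I hI
    unfold tot
    dsimp only
    rw [h1 _ fun h => hI (Kd.ord.inj h).2]
    congr 1
    exact sum_congr rfl fun i _ => h1 _ fun h => Kd.noConfusion h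
  constructor
  · intro h
    refine ⟨fun τ hτ => h.ok τ ?_, fun I hI hI' => ?_, fun i hi I hI => ?_,
      fun μ h3 h4 I hI => ?_⟩
    · by_cases h3 : τ = Kd.ord M (range j)
      · rw [h3, Multiset.count_cons_self]
        omega
      · rw [h1 τ h3]
        exact hτ
    · rw [← h2 I hI']
      exact h.big I hI hI'
    · have h3 := h.swp i hi I hI
      rwa [h1 _ fun h => Kd.noConfusion h] at h3
    · have h5 := h.sml μ h3 h4 I hI
      rwa [h1 _ fun h => absurd (Kd.ord.inj h).1 h4.ne] at h5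
  · intro h
    refine ⟨fun τ hτ => ?_, fun I hI hI' => ?_, fun i hi I hI => ?_,
      fun μ h3 h4 I hI => ?_⟩
    · by_cases h3 : τ = Kd.ord M (range j)
      · rw [h3, mem_kds]
        exact ⟨hM, le_rfl, subset_rfl⟩
      · refine h.ok τ ?_
        rwa [h1 τ h3] at hτ
    · rw [h2 I hI']
      exact h.big I hI hI'
    · have h3 := h.swp i hi I hI
      rwa [h1 _ fun h => Kd.noConfusion h]
    · have h5 := h.sml μ h3 h4 I hI
      rwa [h1 _ fun h => absurd (Kd.ord.inj h).1 h4.ne]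

theorem Cls0.ok' {M c j n : ℕ} {e : ℝ} {s : Multiset Kd}
    (h : Cls0 M c j n e (fun τ => s.count τ)) : ∀ k ∈ s, k.Ok M j := by
  intro k hk
  refine mem_kds.1 (h.ok k ?_)
  exact (Multiset.count_pos.2 hk).ne'

theorem gM_add_le {E ν T : Type} [Fintype E] (S : Sys E ν T) (s : Multiset T) :
    gM S s ≤ Fintype.card E := by
  induction s using Multiset.induction_on with
  | empty => exact (gM_zero S).le
  | cons t s ih => exact (gM_cons_le S s t).trans ih

/-- STEP, from DH and NUM. -/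
theorem step_of (M c j : ℕ) (hj : j + 2 ≤ M) (hc : 0 < c)
    (dh : ∀ (n : ℕ) (sL sO : Multiset Kd) (y a : ℕ), (j + 1) * c + 1 ≤ n →
      (∀ k ∈ sL, k.Ok M j) →
      gM (LS M (blk c (n - c)) j) (sL + Multiset.replicate (y + a) Kd.sm) = 0 →
      gM (LS M (blk c n) j) (sL + sO + Multiset.replicate y (Kd.ord M ∅) +
        Multiset.replicate a Kd.sm) ≤
      gM (LS M (blk c n) (j + 1)) (sL.map (Kd.add j) + sO + Multiset.replicate y (Kd.sw j ∅)))
    (num : ∀ e' : ℝ, 0 < e' → ∃ e₀ : ℝ, 0 < e₀ ∧ ∀ e : ℝ, 0 < e → e ≤ e₀ → ∀ X : ℕ, ∃ n₁ : ℕ,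
      ∀ n : ℕ, n₁ ≤ n → ∀ s : Multiset Kd, Cls0 M c j n (e + 1 / (n : ℝ)) (fun τ => s.count τ) →
      -(bb c (M - 1) j n : ℤ) ≤ vd M c j n s → vd M c j n s < (X + 1) * bb c (M - 1) j n →
      ∀ x, x ≤ X → ∃ sL sO : Multiset Kd,
        s = sL + sO + Multiset.replicate (2 * bb c (M - 1) j (n - c)) (Kd.ord M ∅) ∧
        Cls0 M c j (n - c) (e + 1 / ((n - c : ℕ) : ℝ)) (fun τ => sL.count τ) ∧
        (x : ℤ) * bb c (M - 1) j (n - c) ≤ vd M c j (n - c) sL ∧
        vd M c j (n - c) sL < (x + 1) * bb c (M - 1) j (n - c) ∧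
        ∀ y, y ≤ 2 * bb c (M - 1) j (n - c) → Cls M c (j + 1) n e' (fun τ =>
          (sL.map (Kd.add j) +
            (sO + Multiset.replicate (2 * bb c (M - 1) j (n - c) - y) (Kd.ord M ∅)) +
            Multiset.replicate y (Kd.sw j ∅)).count τ))
    (hO : OJ M c j) (hP : PROP M c (j + 1)) : PROP M c j := by
  obtain ⟨e', he', n₂, hP⟩ := hP
  obtain ⟨eO, heO, n₃, hO⟩ := hO
  obtain ⟨e₀, he₀, hnum⟩ := num e' he'
  obtain ⟨n₄, hn₄⟩ := exists_nat_gt (2 / eO)
  set e : ℝ := min e₀ (eO / 2) with he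
  have hepos : 0 < e := lt_min he₀ (by positivity)
  have hrad : ∀ n : ℕ, n₄ + 1 ≤ n → e + 1 / (n : ℝ) ≤ eO := by
    intro n hn
    have h1 : (2 / eO : ℝ) < n := by
      refine hn₄.trans ?_
      exact_mod_cast hn
    have h2 : (0 : ℝ) < n := lt_trans (by positivity) h1
    have h3 : 1 / (n : ℝ) ≤ eO / 2 := by
      rw [div_le_iff₀ h2]
      rw [div_lt_iff₀ heO] at h1
      linarith
    have h4 : e ≤ eO / 2 := min_le_right _ _
    linarith
  set n₀ : ℕ := n₂ + n₃ + n₄ + 1 + ((j + 1) * c + 1) with hn₀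
  have hjc : j * c ≤ (j + 1) * c := Nat.mul_le_mul_right c (Nat.le_succ j)
  have hjc' : (j + 1) * c = j * c + c := by ring
  obtain ⟨n₅, h⟩ := step_abs c hc (fun n s => gM (LS M (blk c n) j) s)
    (fun n s => gM (LS M (blk c n) (j + 1)) s) (fun n s => vd M c j n s)
    (fun n s => vd M c (j + 1) n s) (fun n => bb c (M - 1) j n)
    (fun n s => Cls0 M c j n (e + 1 / (n : ℝ)) fun τ => s.count τ)
    (fun n s => Cls M c (j + 1) n e' fun τ => s.count τ) Kd.sm (Kd.ord M ∅) (Kd.sw j ∅)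
    (Kd.ord M (range j)) (Kd.add j) n₀
    (fun n hn => bb_pos hc (M - 1) (by omega) (by omega))
    (fun n hn => bb_mono hc (M - 1) (by omega) (Nat.sub_le n c))
    (fun n => ⟨_, fun s => gM_add_le (LS M (blk c n) j) s⟩)
    (fun n s hn hs => vd_le_gM_blk (by omega) hc (by omega) s hs.ok')
    (fun n s a _ => gM_add_sm M (blk c n) (Ex (blk c n) (2 * M - 1) j) s a)
    (fun n s => gM_cons_le (LS M (blk c n) j) s _)
    (fun n s hn => by
      have h1 := gM_le_cons (LS M (blk c n) j) s (Kd.ord M (range j))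
      have h2 := size_blk (M := M) (c := c) (j := j) (n := n) (by omega) hc (by omega)
        (k := Kd.ord M (range j)) ⟨by omega, le_rfl, subset_rfl⟩
      have h3 : wt M c n (Kd.ord M (range j)) = bb c (M - 1) j n := by
        show bb c (M - 1) (range j).card n = _
        rw [card_range]
      rw [h3] at h2
      exact h1.trans (Nat.add_le_add_left h2 _))
    (fun n s => gM_submod (LS M (blk c n) j) s _ _)
    (fun n s _ => by
      have h3 : wt M c n (Kd.ord M (range j)) = bb c (M - 1) j n := by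
        show bb c (M - 1) (range j).card n = _
        rw [card_range]
      unfold vd
      rw [Multiset.map_cons, Multiset.sum_cons, h3]
      push_cast
      ring)
    (fun n s => Cls0.cons_top (by omega))
    (fun n s hn hs hns => hO n (by omega) s (hs.mono (hrad n (by omega))) hns)
    (fun n sL sO y a hn hs h0 => dh n sL sO y a (by omega)
      (fun k hk => hs.ok' k (Multiset.mem_add.2 (Or.inl (Multiset.mem_add.2 (Or.inl hk))))) h0)
    (fun n s hn hs => hP n (by omega) s hs)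
    (fun n sL sO y hn hs => vd_res hc (by omega) sL sO y
      (fun k hk => hs.ok' k (Multiset.mem_add.2 (Or.inl (Multiset.mem_add.2 (Or.inl hk))))))
    (hnum e hepos (min_le_left _ _))
  refine ⟨e, hepos, n₅, fun n hn s hs => h n hn s (hs.toCls0.mono ?_)⟩
  have h1 : (0 : ℝ) ≤ 1 / (n : ℝ) := by positivity
  linarith

end Pool.Agent.V7
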