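import Pool.Agent.H51.TB.Gd

/-!
# V7: the lemma TRACE, abstract form

`S` is a system on `E`, `S₁` (trace) one on `E₁`, `S₂` (residual) one on `E₂`, where the index set `E`
is covered by the images of `E₁` and `E₂`.  The points of `m` are put in special position `ρ q₁`
(`q₁` a position for `S₁`).  The restriction to `E₁` of a solution satisfies the conditions of the trace,
and the solutions which vanish on `E₁` satisfy the conditions of the residual.  Then
`gd ≤ gd trace + gd residual`.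
-/

namespace Pool.Agent.V7.ST

open Finset MvPolynomial Pool.Agent.H51.TB

/-- Pull back of a general statement (change of the points and of the coordinates). -/
theorem gn_pull {κ κ' ν ν' : Type} (φ : κ' → κ) (hφ : Function.Injective φ) (ψ : ν' → ν)
    (hψ : Function.Injective ψ) {P : (κ' → ν' → ℂ) → Prop} (h : Gn κ' ν' P) :
    Gn κ ν fun p => P fun i x => p (φ i) (ψ x) := by
  obtain ⟨G, hG, h⟩ := h
  have hinj : Function.Injective (fun x : κ' × ν' => (φ x.1, ψ x.2)) := by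
    intro x y hxy
    have h1 := congrArg Prod.fst hxy
    have h2 := congrArg Prod.snd hxy
    exact Prod.ext (hφ h1) (hψ h2)
  refine ⟨rename (fun x : κ' × ν' => (φ x.1, ψ x.2)) G, ?_, fun p hp => ?_⟩
  · intro h0
    apply hG
    apply rename_injective _ hinj
    rw [h0, map_zero]
  · apply h
    rw [eval_rename] at hp
    exact hp

/-- Rank nullity for the restriction of functions to a part of the index set. -/
theorem finrank_split {E E₁ E₂ : Type} [Fintype E] [Fintype E₁] [Fintype E₂]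
    (i₁ : E₁ → E) (i₂ : E₂ → E) (hcov : ∀ e, (∃ a, i₁ a = e) ∨ ∃ b, i₂ b = e)
    (V : Submodule ℂ (E → ℂ)) (V₁ : Submodule ℂ (E₁ → ℂ)) (V₂ : Submodule ℂ (E₂ → ℂ))
    (h1 : ∀ f ∈ V, (fun a => f (i₁ a)) ∈ V₁)
    (h2 : ∀ f ∈ V, (∀ a, f (i₁ a) = 0) → (fun b => f (i₂ b)) ∈ V₂) :
    Module.finrank ℂ V ≤ Module.finrank ℂ V₁ + Module.finrank ℂ V₂ := by
  let L : V →ₗ[ℂ] V₁ := LinearMap.codRestrict V₁
    ((LinearMap.funLeft ℂ ℂ i₁).comp V.subtype) fun f => h1 f.1 f.2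
  have hL : ∀ f : V, ∀ a, (L f).1 a = f.1 (i₁ a) := fun f a => rfl
  have hk : ∀ f : LinearMap.ker L, ∀ a, f.1.1 (i₁ a) = 0 := by
    intro f a
    have h := f.2
    rw [LinearMap.mem_ker] at h
    rw [← hL, h]
    rfl
  let K : LinearMap.ker L →ₗ[ℂ] V₂ := LinearMap.codRestrict V₂
    ((LinearMap.funLeft ℂ ℂ i₂).comp (V.subtype.comp (LinearMap.ker L).subtype))
      fun f => h2 f.1.1 f.1.2 (hk f)
  have hK : Function.Injective K := by
    intro f g hfg
    apply Subtype.ext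
    apply Subtype.ext
    funext e
    rcases hcov e with ⟨a, rfl⟩ | ⟨b, rfl⟩
    · exact (hk f a).trans (hk g a).symm
    · have h : (K f).1 b = (K g).1 b := by rw [hfg]
      exact h
  have e1 := LinearMap.finrank_range_add_finrank_ker L
  have e2 : Module.finrank ℂ (LinearMap.range L) ≤ Module.finrank ℂ V₁ :=
    Submodule.finrank_le _
  have e3 : Module.finrank ℂ (LinearMap.ker L) ≤ Module.finrank ℂ V₂ :=
    LinearMap.finrank_le_finrank_of_injective hK
  omega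

/-- TRACE, abstract form. -/
theorem gd_trace {E E₁ E₂ ν ν₁ T : Type} [Fintype E] [Fintype E₁] [Fintype E₂]
    (S : Sys E ν T) (S₁ : Sys E₁ ν₁ T) (S₂ : Sys E₂ ν T)
    (i₁ : E₁ → E) (i₂ : E₂ → E) (hcov : ∀ e, (∃ a, i₁ a = e) ∨ ∃ b, i₂ b = e)
    (σ : ν₁ → ν) (hσ : Function.Injective σ) (ρ : (ν₁ → ℂ) → ν → ℂ)
    {κ κ' : Type} [Fintype κ] [Fintype κ'] (m m₂ : κ → T) (n : κ' → T)
    (h1 : ∀ i (q : ν₁ → ℂ) (f : E → ℂ), f ∈ S.V (fun _ : Unit => m i) (fun _ => ρ q) →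
      (fun a => f (i₁ a)) ∈ S₁.V (fun _ : Unit => m i) fun _ => q)
    (h2 : ∀ i (q : ν → ℂ) (f : E → ℂ),
      f ∈ S.V (fun _ : Unit => m i) (fun _ => ρ fun x => q (σ x)) → (∀ a, f (i₁ a) = 0) →
      (fun b => f (i₂ b)) ∈ S₂.V (fun _ : Unit => m₂ i) fun _ => q)
    (h3 : ∀ i (q : ν → ℂ) (f : E → ℂ), f ∈ S.V (fun _ : Unit => n i) (fun _ => q) →
      (∀ a, f (i₁ a) = 0) → (fun b => f (i₂ b)) ∈ S₂.V (fun _ : Unit => n i) fun _ => q) :
    S.gd (Sum.elim m n) ≤ S₁.gd m + S₂.gd (Sum.elim m₂ n) := by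
  obtain ⟨p, hp1, hp2⟩ := ((gn_pull (κ := κ ⊕ κ') Sum.inl Sum.inl_injective σ hσ
    (gn_gd S₁ m)).and (gn_gd S₂ (Sum.elim m₂ n))).exists
  rw [← hp1, ← hp2]
  refine (gd_le S (Sum.elim m n)
    (Sum.elim (fun i => ρ fun x => p (Sum.inl i) (σ x)) fun i => p (Sum.inr i))).trans ?_
  refine finrank_split i₁ i₂ hcov _ _ _ ?_ ?_
  · intro f hf i r
    exact h1 i (fun x => p (Sum.inl i) (σ x)) f (fun _ r => hf (Sum.inl i) r) () r
  · intro f hf h0 i r
    rcases i with i | i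
    · exact h2 i (p (Sum.inl i)) f (fun _ r => hf (Sum.inl i) r) h0 () r
    · exact h3 i (p (Sum.inr i)) f (fun _ r => hf (Sum.inr i) r) h0 () r

end Pool.Agent.V7.ST
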