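import Pool.Agent.V7.Defs
import Pool.Agent.V7.ST.TraceAbs

/-!
# V7: the lemma TRACE

The variables are `ν ⊕ δ`, where `δ` is the block `j` (and no variable of `ν` lies in it).  For an
arbitrary finite set `A` of exponents let `trA A` be the exponents on `ν` which lie in `A` after
extension by `0`, and `reA A` the exponents of `A` which meet the block `δ`.  If the points of `m`
are put on the subspace `L_j`, we get

`gd A (m, n) ≤ gd (trA A) m + gd (reA A) (m.add j, n)`.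

The kinds are arbitrary.
-/

set_option autoImplicit false
set_option linter.unusedSectionVars false

namespace Pool.Agent.V7.ST

open Finset MvPolynomial Pool.Agent.H51.TB Pool.Agent.H54.V7 Pool.Agent.V7
open Pool.Agent.H18.Ex (tcr)

section

variable {ν δ : Type} [Fintype ν] [DecidableEq ν] [Fintype δ] [DecidableEq δ]

/-- Extension of an exponent by `0`. -/
abbrev ex0 (δ : Type) (a : ν → ℕ) : ν ⊕ δ → ℕ := Sum.elim a fun _ => 0

/-- The exponents without variables of the block. -/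
def trA (A : Finset (ν ⊕ δ → ℕ)) : Finset (ν → ℕ) :=
  (A.image fun a s => a (Sum.inl s)).filter fun a => ex0 δ a ∈ A

/-- The exponents which meet the block. -/
def reA (A : Finset (ν ⊕ δ → ℕ)) : Finset (ν ⊕ δ → ℕ) :=
  A.filter fun a => ∃ t, a (Sum.inr t) ≠ 0

theorem mem_trA {A : Finset (ν ⊕ δ → ℕ)} {a : ν → ℕ} : a ∈ trA A ↔ ex0 δ a ∈ A := by
  unfold trA
  rw [mem_filter, mem_image]
  constructor
  · exact fun h => h.2
  · exact fun h => ⟨⟨ex0 δ a, h, rfl⟩, h⟩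

theorem mem_reA {A : Finset (ν ⊕ δ → ℕ)} {a : ν ⊕ δ → ℕ} :
    a ∈ reA A ↔ a ∈ A ∧ ∃ t, a (Sum.inr t) ≠ 0 := by
  unfold reA
  rw [mem_filter]

/-- The exponents of the trace inside `A`. -/
def inT (A : Finset (ν ⊕ δ → ℕ)) (a : {a // a ∈ trA A}) : {a // a ∈ A} :=
  ⟨ex0 δ a.1, mem_trA.1 a.2⟩

/-- The exponents of the residual inside `A`. -/
def inR (A : Finset (ν ⊕ δ → ℕ)) (a : {a // a ∈ reA A}) : {a // a ∈ A} :=
  ⟨a.1, (mem_reA.1 a.2).1⟩

theorem inT_inj (A : Finset (ν ⊕ δ → ℕ)) : Function.Injective (inT A) := by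
  intro a b h
  apply Subtype.ext
  funext s
  exact congrFun (congrArg Subtype.val h) (Sum.inl s)

theorem inR_inj (A : Finset (ν ⊕ δ → ℕ)) : Function.Injective (inR A) := by
  intro a b h
  apply Subtype.ext
  have h1 : (inR A a).1 = (inR A b).1 := congrArg Subtype.val h
  exact h1

theorem cov (A : Finset (ν ⊕ δ → ℕ)) (e : {a // a ∈ A}) :
    (∃ a, inT A a = e) ∨ ∃ b, inR A b = e := by
  by_cases h : ∃ t, e.1 (Sum.inr t) ≠ 0
  · exact Or.inr ⟨⟨e.1, mem_reA.2 ⟨e.2, h⟩⟩, rfl⟩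
  · push Not at h
    have h1 : ex0 δ (fun s => e.1 (Sum.inl s)) = e.1 := by
      funext s
      rcases s with s | t
      · rfl
      · exact (h t).symm
    refine Or.inl ⟨⟨fun s => e.1 (Sum.inl s), mem_trA.2 (by rw [h1]; exact e.2)⟩, ?_⟩
    exact Subtype.ext h1

/-- Extension of a point by `0`. -/
abbrev pt0 (δ : Type) (q : ν → ℂ) : ν ⊕ δ → ℂ := Sum.elim q fun _ => 0

theorem tcr_pt0 (q : ν → ℂ) (e : ν ⊕ δ → ℕ) (b : ν → ℕ) :
    tcr (pt0 δ q) e (ex0 δ b) =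
      if ∀ t, e (Sum.inr t) = 0 then tcr q (fun s => e (Sum.inl s)) b else 0 := by
  split_ifs with h
  · unfold tcr
    rw [Fintype.prod_sum_type]
    have h1 : ∏ t : δ, (((e (Sum.inr t)).choose (ex0 δ b (Sum.inr t)) : ℕ) : ℂ) *
        pt0 δ q (Sum.inr t) ^ (e (Sum.inr t) - ex0 δ b (Sum.inr t)) = 1 := by
      refine prod_eq_one fun t _ => ?_
      rw [h t]
      simp
    rw [h1, mul_one]
    rfl
  · push Not at h
    obtain ⟨t, ht⟩ := h
    unfold tcr
    refine prod_eq_zero (mem_univ (Sum.inr t)) ?_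
    show _ * (0 : ℂ) ^ (e (Sum.inr t) - 0) = 0
    rw [Nat.sub_zero, zero_pow ht, mul_zero]

/-- Sums over the exponents of `A` at a point of the subspace. -/
theorem sum_trA (A : Finset (ν ⊕ δ → ℕ)) (f : {a // a ∈ A} → ℂ) (q : ν → ℂ) (b : ν → ℕ) :
    ∑ e : {a // a ∈ trA A}, f (inT A e) * tcr q e.1 b =
      ∑ e : {a // a ∈ A}, f e * tcr (pt0 δ q) e.1 (ex0 δ b) := by
  refine Fintype.sum_of_injective (inT A) (inT_inj A) _ _ ?_ ?_
  · intro e he
    rw [tcr_pt0, if_neg, mul_zero]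
    intro h
    apply he
    rcases cov A e with ⟨a, ha⟩ | ⟨a, ha⟩
    · exact ⟨a, ha⟩
    · obtain ⟨t, ht⟩ := (mem_reA.1 a.2).2
      rw [← ha] at h
      exact absurd (h t) ht
  · intro e
    rw [tcr_pt0, if_pos]
    · rfl
    · intro t
      rfl

/-- Sums over the exponents of `A` for a form which vanishes on the subspace. -/
theorem sum_reA (A : Finset (ν ⊕ δ → ℕ)) (f : {a // a ∈ A} → ℂ) (h0 : ∀ a, f (inT A a) = 0)
    (g : (ν ⊕ δ → ℕ) → ℂ) :
    ∑ e : {a // a ∈ reA A}, f (inR A e) * g e.1 = ∑ e : {a // a ∈ A}, f e * g e.1 := by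
  refine Fintype.sum_of_injective (inR A) (inR_inj A) _ _ ?_ ?_
  · intro e he
    rcases cov A e with ⟨a, ha⟩ | ⟨a, ha⟩
    · rw [← ha, h0 a, zero_mul]
    · exact absurd ⟨a, ha⟩ he
  · intro e
    rfl

/-! ### The restriction to the subspace -/

theorem fat_trA (A : Finset (ν ⊕ δ → ℕ)) (f : {a // a ∈ A} → ℂ) (μ : ℕ) (q : ν → ℂ)
    (h : Fat (fun e : {a // a ∈ A} => e.1) μ (pt0 δ q) f) :
    Fat (fun e : {a // a ∈ trA A} => e.1) μ q fun a => f (inT A a) := by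
  intro b hb
  rw [sum_trA]
  refine h (ex0 δ b) ?_
  rw [Fintype.sum_sum_type]
  simpa using hb

theorem sw_trA (A : Finset (ν ⊕ δ → ℕ)) (f : {a // a ∈ A} → ℂ) (M : ℕ) (B : Finset (ν ⊕ δ))
    (B' : Finset ν) (hB : ∀ s, Sum.inl s ∈ B → s ∈ B') (p v : ν → ℂ)
    (h : Sw (fun e : {a // a ∈ A} => e.1) M (2 * M) B (pt0 δ p) (pt0 δ v) f) :
    Sw (fun e : {a // a ∈ trA A} => e.1) M (2 * M) B' p v fun a => f (inT A a) := by
  intro a ha h1 h2
  have hs : ∑ i, ex0 δ a i = ∑ i, a i := by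
    rw [Fintype.sum_sum_type]
    simp
  have h3 := h (ex0 δ a) (by
    rintro (s | t) hs
    · exact ha s (hB s hs)
    · rfl) (by rw [hs]; exact h1) (by rw [hs]; exact h2)
  rw [← h3]
  have hinj : Function.Injective (ex0 (ν := ν) δ) := by
    intro x y hxy
    funext s
    exact congrFun hxy (Sum.inl s)
  have h4 : ∑ b ∈ bxd ν (2 * M) M, tcr v b a * ∑ e : {a // a ∈ trA A}, f (inT A e) * tcr p e.1 b =
      ∑ b ∈ (bxd ν (2 * M) M).image (ex0 δ), tcr (pt0 δ v) b (ex0 δ a) *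
        ∑ e : {a // a ∈ A}, f e * tcr (pt0 δ p) e.1 b := by
    rw [sum_image fun x _ y _ hxy => hinj hxy]
    refine sum_congr rfl fun b _ => ?_
    have h5 : ∀ t : δ, ex0 δ b (Sum.inr t) = 0 := fun t => rfl
    rw [sum_trA, tcr_pt0, if_pos h5]
    rfl
  rw [h4]
  refine sum_subset ?_ ?_
  · intro b hb
    obtain ⟨b', hb', rfl⟩ := mem_image.1 hb
    unfold bxd at hb' ⊢
    rw [mem_filter, mem_bx] at hb' ⊢
    refine ⟨?_, ?_⟩
    · rintro (s | t)
      · exact hb'.1 s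
      · show 0 < 2 * M
        omega
    · rw [Fintype.sum_sum_type]
      simpa using hb'.2
  · intro b hb hb'
    rw [tcr_pt0, if_neg, zero_mul]
    intro h5
    apply hb'
    rw [mem_image]
    have h6 : ex0 δ (fun s => b (Sum.inl s)) = b := by
      funext s
      rcases s with s | t
      · rfl
      · exact (h5 t).symm
    refine ⟨fun s => b (Sum.inl s), ?_, h6⟩
    unfold bxd at hb ⊢
    rw [mem_filter, mem_bx] at hb ⊢
    refine ⟨fun s => hb.1 (Sum.inl s), ?_⟩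
    rw [← hb.2, Fintype.sum_sum_type]
    have h7 : ∑ t : δ, b (Sum.inr t) = 0 := sum_eq_zero fun t _ => h5 t
    rw [h7, add_zero]

/-! ### The theorem -/

/-- The position of a point of the subspace. -/
def rho (δ : Type) (q : ν ⊕ ν → ℂ) : (ν ⊕ δ) ⊕ (ν ⊕ δ) → ℂ :=
  Sum.elim (pt0 δ fun s => q (Sum.inl s)) (pt0 δ fun s => q (Sum.inr s))

theorem msk_rho (β : ν → ℕ) (j : ℕ) (I : Finset ℕ) (q : ν → ℂ) :
    msk (Sum.elim β fun _ : δ => j) I (pt0 δ q) = pt0 δ (msk β I q) := by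
  funext s
  rcases s with s | t
  · rfl
  · show (if _ then (0 : ℂ) else 0) = 0
    rw [ite_self]

theorem msk_insert (β : ν → ℕ) (j : ℕ) (hj : ∀ s, β s ≠ j) (I : Finset ℕ) (q : ν ⊕ δ → ℂ) :
    msk (Sum.elim β fun _ : δ => j) (insert j I) q =
      msk (Sum.elim β fun _ : δ => j) I (pt0 δ fun s => q (Sum.inl s)) := by
  funext s
  rcases s with s | t
  · show (if β s ∈ insert j I then (0 : ℂ) else _) = if β s ∈ I then (0 : ℂ) else _
    have h : β s ∈ insert j I ↔ β s ∈ I := by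
      rw [mem_insert]
      exact or_iff_right (hj s)
    simp only [h]
    rfl
  · show (if j ∈ insert j I then (0 : ℂ) else _) = if j ∈ I then (0 : ℂ) else 0
    rw [if_pos (mem_insert_self j I), ite_self]

theorem satK_trA (M : ℕ) (β : ν → ℕ) (j : ℕ) (A : Finset (ν ⊕ δ → ℕ)) (k : Kd) (q : ν ⊕ ν → ℂ)
    (f : {a // a ∈ A} → ℂ) (h : SatK M (Sum.elim β fun _ : δ => j) k (rho δ q) f) :
    SatK M β k q fun a => f (inT A a) := by
  rcases k with ⟨μ, I⟩ | ⟨i, I⟩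
  · have h1 : Fat (fun e : {a // a ∈ A} => e.1) μ
        (msk (Sum.elim β fun _ : δ => j) I (pt0 δ fun s => q (Sum.inl s))) f := h
    rw [msk_rho] at h1
    exact fat_trA A f μ _ h1
  · obtain ⟨h1, h2⟩ : Fat (fun e : {a // a ∈ A} => e.1) M
        (msk (Sum.elim β fun _ : δ => j) (insert i I) (pt0 δ fun s => q (Sum.inl s))) f ∧
      Sw (fun e : {a // a ∈ A} => e.1) M (2 * M)
        (univ.filter fun s => (Sum.elim β fun _ : δ => j : ν ⊕ δ → ℕ) s = i)
        (msk (Sum.elim β fun _ : δ => j) (insert i I) (pt0 δ fun s => q (Sum.inl s)))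
        (msk (Sum.elim β fun _ : δ => j) I (pt0 δ fun s => q (Sum.inr s))) f := h
    rw [msk_rho] at h1
    rw [msk_rho, msk_rho] at h2
    refine ⟨fat_trA A f M _ h1, sw_trA A f M _ _ ?_ _ _ h2⟩
    intro s hs
    rw [mem_filter] at hs ⊢
    exact ⟨mem_univ s, hs.2⟩

theorem satK_reA (M : ℕ) (β : ν ⊕ δ → ℕ) (A : Finset (ν ⊕ δ → ℕ)) (k : Kd)
    (q : (ν ⊕ δ) ⊕ (ν ⊕ δ) → ℂ) (f : {a // a ∈ A} → ℂ) (h0 : ∀ a, f (inT A a) = 0)
    (h : SatK M β k q f) : SatK M β k q fun a : {a // a ∈ reA A} => f (inR A a) := by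
  have fat : ∀ (μ : ℕ) (p : ν ⊕ δ → ℂ), Fat (fun e : {a // a ∈ A} => e.1) μ p f →
      Fat (fun e : {a // a ∈ reA A} => e.1) μ p fun a => f (inR A a) := by
    intro μ p h b hb
    rw [sum_reA A f h0 fun e => tcr p e b]
    exact h b hb
  rcases k with ⟨μ, I⟩ | ⟨i, I⟩
  · exact fat _ _ h
  · refine ⟨fat _ _ h.1, ?_⟩
    intro a ha h1 h2
    rw [← h.2 a ha h1 h2]
    refine sum_congr rfl fun b _ => ?_
    rw [sum_reA A f h0 fun e => tcr _ e b]

theorem satK_add (M : ℕ) (β : ν → ℕ) (j : ℕ) (hj : ∀ s, β s ≠ j) {A : Finset (ν ⊕ δ → ℕ)}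
    (k : Kd) (q : (ν ⊕ δ) ⊕ (ν ⊕ δ) → ℂ) (f : {a // a ∈ A} → ℂ) :
    SatK M (Sum.elim β fun _ : δ => j) (k.add j) q f ↔
      SatK M (Sum.elim β fun _ : δ => j) k
        (rho δ fun x => q (Sum.map Sum.inl Sum.inl x)) f := by
  rcases k with ⟨μ, I⟩ | ⟨i, I⟩
  · show Fat _ _ (msk _ (insert j I) _) f ↔ Fat _ _ (msk _ I _) f
    rw [msk_insert β j hj I]
    exact Iff.rfl
  · show (Fat _ _ (msk _ (insert i (insert j I)) _) f ∧
      Sw _ _ _ _ (msk _ (insert i (insert j I)) _) (msk _ (insert j I) _) f) ↔ _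
    rw [Finset.insert_comm i j I, msk_insert β j hj (insert i I), msk_insert β j hj I]
    exact Iff.rfl

/-- TRACE, for an arbitrary set of exponents and arbitrary kinds. -/
theorem trace_LSA (M : ℕ) (β : ν → ℕ) (j : ℕ) (hj : ∀ s, β s ≠ j) (A : Finset (ν ⊕ δ → ℕ))
    {κ κ' : Type} [Fintype κ] [Fintype κ'] (m : κ → Kd) (n : κ' → Kd) :
    (LSA M (Sum.elim β fun _ : δ => j) A).gd (Sum.elim m n) ≤ (LSA M β (trA A)).gd m +
      (LSA M (Sum.elim β fun _ : δ => j) (reA A)).gd (Sum.elim (fun i => (m i).add j) n) := by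
  refine gd_trace (LSA M (Sum.elim β fun _ : δ => j) A) (LSA M β (trA A))
    (LSA M (Sum.elim β fun _ : δ => j) (reA A)) (inT A) (inR A) (cov A)
    (Sum.map Sum.inl Sum.inl) ?_ (rho δ) m (fun i => (m i).add j) n ?_ ?_ ?_
  · exact Sum.map_injective.2 ⟨Sum.inl_injective, Sum.inl_injective⟩
  · intro i q f hf
    rw [mem_LSA] at hf ⊢
    exact fun u => satK_trA M β j A (m i) q f (hf u)
  · intro i q f hf h0
    rw [mem_LSA] at hf ⊢
    intro u
    rw [satK_add M β j hj]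
    exact satK_reA M _ A (m i) _ f h0 (hf u)
  · intro i q f hf h0
    rw [mem_LSA] at hf ⊢
    exact fun u => satK_reA M _ A (n i) q f h0 (hf u)

/-! ### The levels -/

theorem trA_Ex (β : ν → ℕ) (d j l : ℕ) :
    trA (Ex (Sum.elim β fun _ : δ => j) d l) = Ex β d l := by
  ext a
  rw [mem_trA, mem_Ex, mem_Ex, Fintype.sum_sum_type]
  simp only [Sum.elim_inl, Sum.elim_inr, sum_const_zero, add_zero]
  refine and_congr Iff.rfl (forall_congr' fun i => ?_)
  constructor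
  · intro h hi
    obtain ⟨s | t, h1, h2⟩ := h hi
    · exact ⟨s, h1, h2⟩
    · exact absurd rfl h2
  · intro h hi
    obtain ⟨s, h1, h2⟩ := h hi
    exact ⟨Sum.inl s, h1, h2⟩

theorem reA_Ex (β : ν → ℕ) (d j : ℕ) (hj : ∀ s, β s ≠ j) :
    reA (Ex (Sum.elim β fun _ : δ => j) d j) = Ex (Sum.elim β fun _ : δ => j) d (j + 1) := by
  ext a
  rw [mem_reA, mem_Ex, mem_Ex]
  constructor
  · rintro ⟨⟨h1, h2⟩, t, ht⟩
    refine ⟨h1, fun i hi => ?_⟩
    rcases Nat.lt_succ_iff_lt_or_eq.1 hi with hi | rfl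
    · exact h2 i hi
    · exact ⟨Sum.inr t, rfl, ht⟩
  · rintro ⟨h1, h2⟩
    refine ⟨⟨h1, fun i hi => h2 i (by omega)⟩, ?_⟩
    obtain ⟨s | t, h3, h4⟩ := h2 j (by omega)
    · exact absurd h3 (hj s)
    · exact ⟨t, h4⟩

/-- TRACE for the systems of the levels. -/
theorem trace_LS (M : ℕ) (β : ν → ℕ) (j : ℕ) (hj : ∀ s, β s ≠ j)
    {κ κ' : Type} [Fintype κ] [Fintype κ'] (m : κ → Kd) (n : κ' → Kd) :
    (LS M (Sum.elim β fun _ : δ => j) j).gd (Sum.elim m n) ≤ (LS M β j).gd m +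
      (LS M (Sum.elim β fun _ : δ => j) (j + 1)).gd (Sum.elim (fun i => (m i).add j) n) := by
  have h := trace_LSA (δ := δ) M β j hj (Ex (Sum.elim β fun _ : δ => j) (2 * M - 1) j) m n
  rw [trA_Ex β _ j j, reA_Ex β _ j hj] at h
  exact h

end

end Pool.Agent.V7.ST
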