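import Pool.Agent.V7.ST.Equiv
import Pool.Agent.V7.ST.Trace

/-!
# V7: the canonical numbering

The system of the level `j` depends only on the blocks `0, …, j - 1` (`LS_congr`); removing the
block `j` from the `n + c` variables with the block map `blk c (n + c)` leaves, below `j`, the block
map `blk c n` (`cut`).
-/

set_option autoImplicit false
set_option linter.unusedSectionVars false

namespace Pool.Agent.V7

open Finset MvPolynomial Pool.Agent.H51.TB Pool.Agent.H54.V7 Pool.Agent.V7.ST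
open Pool.Agent.H18.Ex (tcr)

/-- The block maps agree below `j`. -/
def Agr {ν : Type} (j : ℕ) (β β' : ν → ℕ) : Prop := ∀ s, ∀ i < j, (β s = i ↔ β' s = i)

theorem Agr.symm {ν : Type} {j : ℕ} {β β' : ν → ℕ} (h : Agr j β β') : Agr j β' β :=
  fun s i hi => (h s i hi).symm

theorem Agr.mem {ν : Type} {j : ℕ} {β β' : ν → ℕ} (h : Agr j β β') {I : Finset ℕ}
    (hI : I ⊆ range j) (s : ν) : β s ∈ I ↔ β' s ∈ I := by
  constructor
  · intro h1
    rw [(h s _ (mem_range.1 (hI h1))).1 rfl]
    exact h1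
  · intro h1
    rw [(h s _ (mem_range.1 (hI h1))).2 rfl]
    exact h1

theorem Agr.msk {ν R : Type} [Zero R] {j : ℕ} {β β' : ν → ℕ} (h : Agr j β β') {I : Finset ℕ}
    (hI : I ⊆ range j) (q : ν → R) : V7.msk β I q = V7.msk β' I q := by
  funext s
  unfold V7.msk
  by_cases h1 : β s ∈ I
  · rw [if_pos h1, if_pos ((h.mem hI s).1 h1)]
  · rw [if_neg h1, if_neg fun h2 => h1 ((h.mem hI s).2 h2)]

section

variable {ν : Type} [Fintype ν] [DecidableEq ν]

theorem Agr.filter {j : ℕ} {β β' : ν → ℕ} (h : Agr j β β') {i : ℕ} (hi : i < j) :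
    (univ.filter fun s => β s = i) = univ.filter fun s => β' s = i := by
  ext s
  rw [mem_filter, mem_filter, h s i hi]

theorem Ex_congr {j : ℕ} {β β' : ν → ℕ} (h : Agr j β β') (d : ℕ) : Ex β d j = Ex β' d j := by
  ext a
  rw [mem_Ex, mem_Ex]
  refine and_congr_right fun _ => forall_congr' fun i => imp_congr_right fun hi => ?_
  constructor
  · rintro ⟨s, h1, h2⟩
    exact ⟨s, (h s i hi).1 h1, h2⟩
  · rintro ⟨s, h1, h2⟩
    exact ⟨s, (h s i hi).2 h1, h2⟩

theorem satK_congr (M : ℕ) {j : ℕ} {β β' : ν → ℕ} (h : Agr j β β') {A : Finset (ν → ℕ)} (k : Kd)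
    (hk : k.Ok M j) (q : ν ⊕ ν → ℂ) (f : {a // a ∈ A} → ℂ) :
    SatK M β k q f ↔ SatK M β' k q f := by
  rcases k with ⟨μ, I⟩ | ⟨i, I⟩
  · have h1 : I ⊆ range j := hk.2.2
    show Fat _ _ _ _ ↔ Fat _ _ _ _
    rw [h.msk h1]
  · have h1 : I ⊆ range j := fun x hx => mem_range.2 (mem_Ico.1 (hk.2 hx)).2
    have h2 : insert i I ⊆ range j := insert_subset (mem_range.2 hk.1) h1
    show (Fat _ _ _ _ ∧ Sw _ _ _ _ _ _ _) ↔ (Fat _ _ _ _ ∧ Sw _ _ _ _ _ _ _)
    rw [h.msk h1, h.msk h2, h.filter hk.1]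

/-- The system depends only on the blocks below `j`. -/
theorem LSA_congr (M : ℕ) {j : ℕ} {β β' : ν → ℕ} (h : Agr j β β') {A A' : Finset (ν → ℕ)}
    (hA : A = A') {κ : Type} (m : κ → Kd) (hm : ∀ i, (m i).Ok M j) :
    (LSA M β A).gd m = (LSA M β' A').gd m := by
  subst hA
  have h1 : ∀ p, (LSA M β A).V m p = (LSA M β' A).V m p := by
    intro p
    ext f
    rw [mem_LSA, mem_LSA]
    exact forall_congr' fun i => satK_congr M h (m i) (hm i) (p i) f
  have h2 : (fun p : κ → ν ⊕ ν → ℂ => Module.finrank ℂ ((LSA M β A).V m p)) =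
      fun p => Module.finrank ℂ ((LSA M β' A).V m p) := by
    funext p
    rw [h1 p]
  exact congrArg (fun F : (κ → ν ⊕ ν → ℂ) → ℕ => sInf (Set.range F)) h2

/-- The system of the level `j` depends only on the blocks below `j`. -/
theorem LS_congr (M : ℕ) {j : ℕ} {β β' : ν → ℕ} (h : Agr j β β') {κ : Type} (m : κ → Kd)
    (hm : ∀ i, (m i).Ok M j) : (LS M β j).gd m = (LS M β' j).gd m :=
  LSA_congr M h (Ex_congr h _) m hm

end

/-! ### Removing the block `j` -/

section

variable {c j n : ℕ}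

/-- The map behind `cut`. -/
def cutF (c j n : ℕ) (h : j * c ≤ n) : Fin n ⊕ Fin c → Fin (n + c) :=
  Sum.elim (fun s => if s.1 < j * c then ⟨s.1, by omega⟩ else ⟨s.1 + c, by omega⟩)
    fun t => ⟨j * c + t.1, by omega⟩

theorem cutF_inj (h : j * c ≤ n) : Function.Injective (cutF c j n h) := by
  have e : ∀ s : Fin n, ((cutF c j n h (Sum.inl s)).1 = s.1 ∧ s.1 < j * c) ∨
      ((cutF c j n h (Sum.inl s)).1 = s.1 + c ∧ j * c ≤ s.1) := by
    intro s
    by_cases h1 : s.1 < j * c
    · left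
      refine ⟨?_, h1⟩
      show (if s.1 < j * c then (⟨s.1, by omega⟩ : Fin (n + c)) else ⟨s.1 + c, by omega⟩).1 = _
      rw [if_pos h1]
    · right
      refine ⟨?_, by omega⟩
      show (if s.1 < j * c then (⟨s.1, by omega⟩ : Fin (n + c)) else ⟨s.1 + c, by omega⟩).1 = _
      rw [if_neg h1]
  have e' : ∀ t : Fin c, (cutF c j n h (Sum.inr t)).1 = j * c + t.1 := fun t => rfl
  rintro (s | t) (s' | t') h1
  · have h2 := congrArg Fin.val h1
    have h3 := e s
    have h4 := e s'
    exact congrArg Sum.inl (Fin.ext (by omega))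
  · have h2 := congrArg Fin.val h1
    have h3 := e s
    have h4 := e' t'
    have h5 := t'.2
    omega
  · have h2 := congrArg Fin.val h1
    have h3 := e s'
    have h4 := e' t
    have h5 := t.2
    omega
  · have h2 := congrArg Fin.val h1
    have h3 := e' t
    have h4 := e' t'
    exact congrArg Sum.inr (Fin.ext (by omega))

/-- The `n + c` variables are the `c` variables of the block `j` and `n` others. -/
noncomputable def cut (c j n : ℕ) (h : j * c ≤ n) : Fin n ⊕ Fin c ≃ Fin (n + c) :=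
  Equiv.ofBijective (cutF c j n h) ((Fintype.bijective_iff_injective_and_card _).2
    ⟨cutF_inj h, by rw [Fintype.card_sum, Fintype.card_fin, Fintype.card_fin, Fintype.card_fin]⟩)

/-- The block numbers of the remaining variables. -/
noncomputable def bt (c j n : ℕ) (h : j * c ≤ n) : Fin n → ℕ :=
  fun s => blk c (n + c) (cut c j n h (Sum.inl s))

theorem blk_inr (hc : 0 < c) (h : j * c ≤ n) (t : Fin c) :
    blk c (n + c) (cut c j n h (Sum.inr t)) = j := by
  show (j * c + t.1) / c = j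
  rw [Nat.mul_comm, Nat.mul_add_div hc, Nat.div_eq_of_lt t.2, Nat.add_zero]

theorem bt_cases (hc : 0 < c) (h : j * c ≤ n) (s : Fin n) :
    (bt c j n h s = blk c n s ∧ blk c n s < j) ∨ (j < bt c j n h s ∧ j ≤ blk c n s) := by
  by_cases h1 : s.1 < j * c
  · left
    have h2 : bt c j n h s = blk c n s := by
      show (if s.1 < j * c then (⟨s.1, by omega⟩ : Fin (n + c)) else ⟨s.1 + c, by omega⟩).1 / c = _
      rw [if_pos h1]
      rfl
    exact ⟨h2, (Nat.div_lt_iff_lt_mul hc).2 h1⟩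
  · right
    have h3 : j ≤ blk c n s := (Nat.le_div_iff_mul_le hc).2 (by omega)
    refine ⟨?_, h3⟩
    show j < (if s.1 < j * c then (⟨s.1, by omega⟩ : Fin (n + c)) else ⟨s.1 + c, by omega⟩).1 / c
    rw [if_neg h1]
    show j < (s.1 + c) / c
    rw [Nat.add_div_right _ hc]
    exact Nat.lt_succ_of_le h3

theorem bt_ne (hc : 0 < c) (h : j * c ≤ n) (s : Fin n) : bt c j n h s ≠ j := by
  rcases bt_cases hc h s with h1 | h1
  · omega
  · omega

theorem agr_bt (hc : 0 < c) (h : j * c ≤ n) : Agr j (bt c j n h) (blk c n) := by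
  intro s i hi
  rcases bt_cases hc h s with h1 | h1
  · rw [h1.1]
  · constructor
    · intro h2
      omega
    · intro h2
      omega

theorem blk_cut (hc : 0 < c) (h : j * c ≤ n) (s : Fin n ⊕ Fin c) :
    blk c (n + c) (cut c j n h s) = Sum.elim (bt c j n h) (fun _ => j) s := by
  rcases s with s | t
  · rfl
  · exact blk_inr hc h t

/-- The system of any level for the variables `Fin n ⊕ Fin c`. -/
theorem LS_cut (M : ℕ) (hc : 0 < c) (h : j * c ≤ n) (l : ℕ) {κ : Type} (m : κ → Kd) :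
    (LS M (blk c (n + c)) l).gd m = (LS M (Sum.elim (bt c j n h) fun _ : Fin c => j) l).gd m :=
  LS_equiv (cut c j n h) M _ _ (blk_cut hc h) l m

/-- The system of the level `j` for the remaining variables. -/
theorem LS_bt (M : ℕ) (hc : 0 < c) (h : j * c ≤ n) {κ : Type} (m : κ → Kd)
    (hm : ∀ i, (m i).Ok M j) : (LS M (bt c j n h) j).gd m = (LS M (blk c n) j).gd m :=
  LS_congr M (agr_bt hc h) m hm

/-- The lemma TRACE for the canonical numbering. -/
theorem trace_blk (M : ℕ) (hc : 0 < c) (h : j * c ≤ n) {κ κ' : Type} [Fintype κ] [Fintype κ']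
    (m : κ → Kd) (hm : ∀ i, (m i).Ok M j) (m' : κ' → Kd) :
    (LS M (blk c (n + c)) j).gd (Sum.elim m m') ≤ (LS M (blk c n) j).gd m +
      (LS M (blk c (n + c)) (j + 1)).gd (Sum.elim (fun i => (m i).add j) m') := by
  rw [LS_cut M hc h, LS_cut M hc h (j + 1), ← LS_bt M hc h m hm]
  exact trace_LS M (bt c j n h) j (bt_ne hc h) m m'

end

end Pool.Agent.V7
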