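import Pool.Agent.V7.Defs
import Pool.Agent.V7.ST.Ms

/-!
# V7: renaming the variables (`LS_equiv`)

A bijection of the variables which preserves the block numbers does not change the general
dimensions.
-/

set_option autoImplicit false
set_option linter.unusedSectionVars false

namespace Pool.Agent.V7

open Finset MvPolynomial Pool.Agent.H51.TB Pool.Agent.H54.V7 Pool.Agent.V7.ST
open Pool.Agent.H18.Ex (tcr)

section

variable {ν ν' : Type} [Fintype ν] [DecidableEq ν] [Fintype ν'] [DecidableEq ν'] (e : ν ≃ ν')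

theorem tcr_equiv {R : Type} [CommRing R] (q : ν' → R) (a b : ν' → ℕ) :
    tcr q a b = tcr (fun s => q (e s)) (fun s => a (e s)) (fun s => b (e s)) := by
  unfold tcr
  exact (Equiv.prod_comp e fun s => (((a s).choose (b s) : ℕ) : R) * q s ^ (a s - b s)).symm

theorem msk_equiv (β : ν → ℕ) (β' : ν' → ℕ) (hβ : ∀ s, β' (e s) = β s) (I : Finset ℕ)
    (q : ν' → ℂ) : (fun s => msk β' I q (e s)) = msk β I fun s => q (e s) := by
  funext s
  unfold msk
  rw [hβ]

theorem mem_Ex_equiv (β : ν → ℕ) (β' : ν' → ℕ) (hβ : ∀ s, β' (e s) = β s) (d j : ℕ)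
    (a : ν' → ℕ) : a ∈ Ex β' d j ↔ (fun s => a (e s)) ∈ Ex β d j := by
  rw [mem_Ex, mem_Ex, Equiv.sum_comp e a]
  refine and_congr_right fun _ => forall_congr' fun i => imp_congr_right fun _ => ?_
  constructor
  · rintro ⟨s, h1, h2⟩
    refine ⟨e.symm s, ?_, ?_⟩
    · rw [← hβ, Equiv.apply_symm_apply]
      exact h1
    · rw [Equiv.apply_symm_apply]
      exact h2
  · rintro ⟨s, h1, h2⟩
    exact ⟨e s, by rw [hβ]; exact h1, h2⟩

variable {A : Finset (ν → ℕ)} {A' : Finset (ν' → ℕ)}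
  (hA : ∀ a : ν' → ℕ, a ∈ A' ↔ (fun s => a (e s)) ∈ A)

/-- The bijection of the exponents. -/
def exE : {a // a ∈ A'} ≃ {a // a ∈ A} where
  toFun a := ⟨fun s => a.1 (e s), (hA a.1).1 a.2⟩
  invFun a := ⟨fun s => a.1 (e.symm s), (hA _).2 (by simpa using a.2)⟩
  left_inv a := by
    apply Subtype.ext
    funext s
    show a.1 (e (e.symm s)) = a.1 s
    rw [Equiv.apply_symm_apply]
  right_inv a := by
    apply Subtype.ext
    funext s
    show a.1 (e.symm (e s)) = a.1 s
    rw [Equiv.symm_apply_apply]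

theorem sum_exE (f : {a // a ∈ A} → ℂ) (x : ν' → ℂ) (b : ν' → ℕ) :
    ∑ a : {a // a ∈ A'}, f (exE e hA a) * tcr x a.1 b =
      ∑ a : {a // a ∈ A}, f a * tcr (fun s => x (e s)) a.1 (fun s => b (e s)) := by
  rw [← Equiv.sum_comp (exE e hA)]
  refine sum_congr rfl fun a _ => ?_
  rw [tcr_equiv e]
  rfl

theorem fat_equiv (μ : ℕ) (x : ν' → ℂ) (f : {a // a ∈ A} → ℂ) :
    Fat (fun a : {a // a ∈ A'} => a.1) μ x (fun a => f (exE e hA a)) ↔
      Fat (fun a : {a // a ∈ A} => a.1) μ (fun s => x (e s)) f := by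
  constructor
  · intro h b hb
    have h1 := h (fun s => b (e.symm s)) (by
      rw [Equiv.sum_comp e.symm b]
      exact hb)
    rw [sum_exE] at h1
    simpa using h1
  · intro h b hb
    rw [sum_exE]
    exact h (fun s => b (e s)) (by
      rw [Equiv.sum_comp e b]
      exact hb)

theorem mem_bxd_equiv (N m : ℕ) (b : ν' → ℕ) :
    b ∈ bxd ν' N m ↔ (fun s => b (e s)) ∈ bxd ν N m := by
  unfold bxd
  rw [mem_filter, mem_filter, mem_bx, mem_bx, Equiv.sum_comp e b]
  refine and_congr_left fun _ => ?_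
  constructor
  · intro h s
    exact h (e s)
  · intro h s
    have := h (e.symm s)
    simpa using this

theorem sum_bxd_equiv (N m : ℕ) (F : (ν → ℕ) → ℂ) :
    ∑ b ∈ bxd ν' N m, F (fun s => b (e s)) = ∑ b ∈ bxd ν N m, F b := by
  refine sum_nbij' (fun b s => b (e s)) (fun b s => b (e.symm s)) ?_ ?_ ?_ ?_ ?_
  · intro b hb
    exact (mem_bxd_equiv e N m b).1 hb
  · intro b hb
    rw [mem_bxd_equiv e]
    simpa using hb
  · intro b _
    funext s
    show b (e (e.symm s)) = b s
    rw [Equiv.apply_symm_apply]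
  · intro b _
    funext s
    show b (e.symm (e s)) = b s
    rw [Equiv.symm_apply_apply]
  · intro b _
    rfl

theorem sw_equiv (m N : ℕ) (B : Finset ν) (B' : Finset ν') (hB : ∀ s, e s ∈ B' ↔ s ∈ B)
    (x y : ν' → ℂ) (f : {a // a ∈ A} → ℂ) :
    Sw (fun a : {a // a ∈ A'} => a.1) m N B' x y (fun a => f (exE e hA a)) ↔
      Sw (fun a : {a // a ∈ A} => a.1) m N B (fun s => x (e s)) (fun s => y (e s)) f := by
  have key : ∀ a : ν' → ℕ, ∑ b ∈ bxd ν' N m, tcr y b a *
      ∑ c : {a // a ∈ A'}, f (exE e hA c) * tcr x c.1 b =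
      ∑ b ∈ bxd ν N m, tcr (fun s => y (e s)) b (fun s => a (e s)) *
        ∑ c : {a // a ∈ A}, f c * tcr (fun s => x (e s)) c.1 b := by
    intro a
    rw [← sum_bxd_equiv e N m]
    refine sum_congr rfl fun b _ => ?_
    rw [sum_exE, tcr_equiv e y b a]
  constructor
  · intro h a h1 h2 h3
    have h4 := h (fun s => a (e.symm s)) (fun s hs => h1 _ (by
      rw [← hB, Equiv.apply_symm_apply]
      exact hs)) (by
      rw [Equiv.sum_comp e.symm a]
      exact h2) (by
      rw [Equiv.sum_comp e.symm a]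
      exact h3)
    rw [key] at h4
    simpa using h4
  · intro h a h1 h2 h3
    rw [key]
    exact h (fun s => a (e s)) (fun s hs => h1 _ ((hB s).2 hs)) (by
      rw [Equiv.sum_comp e a]
      exact h2) (by
      rw [Equiv.sum_comp e a]
      exact h3)

theorem satK_equiv (M : ℕ) (β : ν → ℕ) (β' : ν' → ℕ) (hβ : ∀ s, β' (e s) = β s) (k : Kd)
    (q : ν' ⊕ ν' → ℂ) (f : {a // a ∈ A} → ℂ) :
    SatK M β' k q (fun a : {a // a ∈ A'} => f (exE e hA a)) ↔
      SatK M β k (fun s => q (Sum.map e e s)) f := by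
  rcases k with ⟨μ, I⟩ | ⟨i, I⟩
  · show Fat _ _ _ _ ↔ Fat _ _ _ _
    rw [fat_equiv, msk_equiv e β β' hβ]
    rfl
  · show (Fat _ _ _ _ ∧ Sw _ _ _ _ _ _ _) ↔ (Fat _ _ _ _ ∧ Sw _ _ _ _ _ _ _)
    rw [fat_equiv, msk_equiv e β β' hβ, sw_equiv e hA M (2 * M) (univ.filter fun s => β s = i),
      msk_equiv e β β' hβ, msk_equiv e β β' hβ]
    · rfl
    · intro s
      rw [mem_filter, mem_filter, hβ]
      exact and_congr (iff_of_true (mem_univ _) (mem_univ _)) Iff.rfl

include hA in
/-- The spaces of solutions correspond. -/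
theorem finrank_V_equiv (M : ℕ) (β : ν → ℕ) (β' : ν' → ℕ) (hβ : ∀ s, β' (e s) = β s)
    {κ : Type} (m : κ → Kd) (p : κ → ν' ⊕ ν' → ℂ) :
    Module.finrank ℂ ((LSA M β' A').V m p) =
      Module.finrank ℂ ((LSA M β A).V m fun i s => p i (Sum.map e e s)) := by
  have h : (LSA M β' A').V m p = ((LSA M β A).V m fun i s => p i (Sum.map e e s)).map
      (LinearEquiv.funCongrLeft ℂ ℂ (exE e hA)).toLinearMap := by
    ext f
    rw [Submodule.mem_map]
    constructor
    · intro hf
      refine ⟨fun a => f ((exE e hA).symm a), ?_, ?_⟩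
      · rw [mem_LSA] at hf ⊢
        intro i
        have h1 := satK_equiv e hA M β β' hβ (m i) (p i) (fun a => f ((exE e hA).symm a))
        rw [← h1]
        simpa using hf i
      · funext a
        show f ((exE e hA).symm (exE e hA a)) = f a
        rw [Equiv.symm_apply_apply]
    · rintro ⟨g, hg, rfl⟩
      rw [mem_LSA] at hg
      rw [mem_LSA]
      intro i
      exact (satK_equiv e hA M β β' hβ (m i) (p i) g).2 (hg i)
  rw [h]
  exact LinearEquiv.finrank_map_eq _ _

include hA in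
/-- Renaming the variables does not change the general dimension. -/
theorem LSA_equiv (M : ℕ) (β : ν → ℕ) (β' : ν' → ℕ) (hβ : ∀ s, β' (e s) = β s)
    {κ : Type} (m : κ → Kd) : (LSA M β' A').gd m = (LSA M β A).gd m := by
  apply le_antisymm
  · obtain ⟨p, hp⟩ := gd_attained (LSA M β A) m
    have h1 := finrank_V_equiv e hA M β β' hβ m fun i s => p i (Sum.map e.symm e.symm s)
    have h2 : (fun i s => p i (Sum.map e.symm e.symm (Sum.map e e s))) = p := by
      funext i s
      rcases s with s | s <;> simp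
    rw [h2, hp] at h1
    rw [← h1]
    exact gd_le _ _ _
  · obtain ⟨p, hp⟩ := gd_attained (LSA M β' A') m
    rw [← hp, finrank_V_equiv e hA M β β' hβ]
    exact gd_le _ _ _

/-- **Renaming the variables**: if `e` preserves the block numbers then the general dimensions
of the systems of the level `j` agree. -/
theorem LS_equiv (M : ℕ) (β : ν → ℕ) (β' : ν' → ℕ) (hβ : ∀ s, β' (e s) = β s) (j : ℕ)
    {κ : Type} (m : κ → Kd) : (LS M β' j).gd m = (LS M β j).gd m :=
  LSA_equiv e (mem_Ex_equiv e β β' hβ (2 * M - 1) j) M β β' hβ m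

/-- `LS_equiv` for multisets. -/
theorem LS_equiv_gM (M : ℕ) (β : ν → ℕ) (β' : ν' → ℕ) (hβ : ∀ s, β' (e s) = β s) (j : ℕ)
    (s : Multiset Kd) : gM (LS M β' j) s = gM (LS M β j) s :=
  LS_equiv e M β β' hβ j _

/-- The number of exponents. -/
theorem card_equiv (β : ν → ℕ) (β' : ν' → ℕ) (hβ : ∀ s, β' (e s) = β s) (d j : ℕ) :
    (Ex β' d j).card = (Ex β d j).card := by
  have h := Fintype.card_congr (exE e (mem_Ex_equiv e β β' hβ d j))
  rwa [Fintype.card_coe, Fintype.card_coe] at h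

end

end Pool.Agent.V7
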